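import Mathlib

/-!
# MP_7742d9_nt: the Galois side modulo infinitely many ideals (helper15)

Definitions.  Paper proof: table `proofs` (helper15, Dec 3).
-/

set_option autoImplicit false

noncomputable section

open Filter Topology

namespace Pool.Agent.GalSide

/-- The sum of `p ^ (-s)` over the primes in `X`. -/
def primeSum (X : Set Nat.Primes) (s : ℝ) : ℝ :=
  ∑' p : Nat.Primes, X.indicator (fun q : Nat.Primes => ((q : ℕ) : ℝ) ^ (-s)) p

/-- `X` has Dirichlet density `δ`. -/
def HasDensity (X : Set Nat.Primes) (δ : ℝ) : Prop :=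
  Tendsto (fun s : ℝ => primeSum X s / Real.log (1 / (s - 1))) (𝓝[>] 1) (𝓝 δ)

/-- The sum of `f p * p ^ (-s)` over all primes converges for `s > 1` close to `1` and is at most
`C * log (1 / (s - 1))` there. -/
def LogBound (C : ℝ) (f : Nat.Primes → ℝ) : Prop :=
  ∀ᶠ s : ℝ in 𝓝[>] 1, Summable (fun p : Nat.Primes => f p * ((p : ℕ) : ℝ) ^ (-s)) ∧
    ∑' p : Nat.Primes, f p * ((p : ℕ) : ℝ) ^ (-s) ≤ C * Real.log (1 / (s - 1))

/-- A topological group with inertia subgroups and Frobenius elements for the prime numbers which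
satisfy the density theorem of Chebotarev: for every open normal subgroup `U` and every conjugacy
class of `Γ ⧸ U` the primes with Frobenius in the class have the right Dirichlet density. -/
structure FrobeniusData (Γ : Type*) [Group Γ] [TopologicalSpace Γ] where
  /-- the inertia group at a prime -/
  inertia : Nat.Primes → Subgroup Γ
  /-- a Frobenius element at a prime -/
  frob : Nat.Primes → Γ
  /-- the density theorem of Chebotarev -/
  chebotarev : ∀ (U : Subgroup Γ) [U.Normal], IsOpen (U : Set Γ) → ∀ g : Γ,
    HasDensity {p | IsConj (QuotientGroup.mk (frob p) : Γ ⧸ U) (QuotientGroup.mk g)}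
      ((Nat.card {x : Γ ⧸ U // IsConj x (QuotientGroup.mk g)} : ℝ) / (Nat.card (Γ ⧸ U) : ℝ))

end Pool.Agent.GalSide
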