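import Pool.Agent.W_7742e_h15.Defs

/-!
# Consequences of the density theorem

`Γ ⧸ U` is finite (`Γ` compact, `U` open).  `primeSum X s` is finitely additive in `X` and bounded
by `∑ p ∈ E, p ^ (-s) ≤ card E` for finite `E` (`s > 1`: all sums converge,
`Nat.Primes.summable_rpow`), while `log (1 / (s - 1)) → ∞` for `s → 1+`.

* `exists_frob_conj`: otherwise the set in `chebotarev` would be contained in the finite set `E`
  and have density `0`; but its density is `card class / card (Γ ⧸ U) > 0`.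
* `card_le_of_frob`: `{p | frob p ∈ B}` is the disjoint union over the classes contained in `B`, so
  it has density `card B / card (Γ ⧸ U)`; and it is contained in `X ∪ E`.
* `exists_good`: let `B` be the set of the `x ∈ Γ ⧸ U` which do not come from `Z`; by
  `card_le_of_frob` it has at most `η * card (Γ ⧸ U)` elements, so the set of the classes of the
  `s ∈ Γ` with `s * h j ∈ Z` for all `j` has at least `(1 - d η) card (Γ ⧸ U)`, more than half, of
  the elements, and meets every `g⁻¹ •` translate of itself.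
-/

set_option autoImplicit false

noncomputable section

open Filter Topology

namespace Pool.Agent.GalSide

variable {Γ : Type*} [Group Γ] [TopologicalSpace Γ] [IsTopologicalGroup Γ] [CompactSpace Γ]

theorem Chb_summable {s : ℝ} (hs : 1 < s) (X : Set Nat.Primes) :
    Summable (fun p : Nat.Primes => X.indicator (fun q : Nat.Primes => ((q : ℕ) : ℝ) ^ (-s)) p) :=
  (Nat.Primes.summable_rpow.mpr (by linarith)).indicator X

theorem Chb_mono {s : ℝ} (hs : 1 < s) {X Y : Set Nat.Primes} (h : X ⊆ Y) : primeSum X s ≤ primeSum Y s := by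
  unfold primeSum
  refine Summable.tsum_le_tsum (fun p => ?_) (Chb_summable hs X) (Chb_summable hs Y)
  exact Set.indicator_le_indicator_of_subset h (fun q => Real.rpow_nonneg (Nat.cast_nonneg _) _) p

theorem Chb_nonneg (s : ℝ) (X : Set Nat.Primes) : 0 ≤ primeSum X s := by
  unfold primeSum
  exact tsum_nonneg fun p => Set.indicator_nonneg (fun q _ => Real.rpow_nonneg (Nat.cast_nonneg _) _) p

theorem Chb_union {s : ℝ} (hs : 1 < s) (X Y : Set Nat.Primes) :
    primeSum (X ∪ Y) s ≤ primeSum X s + primeSum Y s := by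
  unfold primeSum
  rw [← (Chb_summable hs X).tsum_add (Chb_summable hs Y)]
  refine Summable.tsum_le_tsum (fun p => ?_) (Chb_summable hs _) ((Chb_summable hs X).add (Chb_summable hs Y))
  have h0 : (0 : ℝ) ≤ ((p : ℕ) : ℝ) ^ (-s) := Real.rpow_nonneg (Nat.cast_nonneg _) _
  by_cases hX : p ∈ X
  · by_cases hY : p ∈ Y
    · rw [Set.indicator_of_mem (show p ∈ X ∪ Y from Or.inl hX), Set.indicator_of_mem hX, Set.indicator_of_mem hY]
      linarith
    · rw [Set.indicator_of_mem (show p ∈ X ∪ Y from Or.inl hX), Set.indicator_of_mem hX, Set.indicator_of_notMem hY]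
      linarith
  · by_cases hY : p ∈ Y
    · rw [Set.indicator_of_mem (show p ∈ X ∪ Y from Or.inr hY), Set.indicator_of_notMem hX, Set.indicator_of_mem hY]
      linarith
    · rw [Set.indicator_of_notMem (show p ∉ X ∪ Y from fun h => h.elim hX hY), Set.indicator_of_notMem hX,
        Set.indicator_of_notMem hY]
      linarith

theorem Chb_finite {E : Set Nat.Primes} (hE : E.Finite) {s : ℝ} (hs : 1 < s) :
    primeSum E s ≤ (hE.toFinset.card : ℝ) := by
  unfold primeSum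
  rw [tsum_eq_sum (s := hE.toFinset)]
  · have h1 : ∀ p ∈ hE.toFinset, E.indicator (fun q : Nat.Primes => ((q : ℕ) : ℝ) ^ (-s)) p ≤ 1 := by
      intro p hp
      rw [Set.indicator_of_mem (hE.mem_toFinset.mp hp)]
      refine Real.rpow_le_one_of_one_le_of_nonpos ?_ (by linarith)
      exact_mod_cast p.2.one_le
    refine (Finset.sum_le_sum h1).trans ?_
    rw [Finset.sum_const, nsmul_eq_mul, mul_one]
  · intro p hp
    exact Set.indicator_of_notMem (fun h => hp (hE.mem_toFinset.mpr h)) _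

theorem Chb_log : Tendsto (fun s : ℝ => Real.log (1 / (s - 1))) (𝓝[>] 1) atTop := by
  have h1 : Tendsto (fun s : ℝ => s - 1) (𝓝[>] 1) (𝓝[>] 0) := by
    refine tendsto_nhdsWithin_iff.mpr ⟨?_, eventually_mem_nhdsWithin.mono fun s hs => ?_⟩
    · have h2 : Tendsto (fun s : ℝ => s - 1) (𝓝 1) (𝓝 (1 - 1)) := (continuous_id.sub continuous_const).tendsto 1
      rw [sub_self] at h2
      exact h2.mono_left nhdsWithin_le_nhds
    · exact Set.mem_Ioi.mpr (sub_pos.mpr hs)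
  have h3 := Real.tendsto_log_atTop.comp (tendsto_inv_nhdsGT_zero.comp h1)
  refine h3.congr fun s => ?_
  simp [one_div]

theorem Chb_gt : ∀ᶠ s : ℝ in 𝓝[>] 1, 1 < s := eventually_mem_nhdsWithin

theorem Chb_const (C : ℝ) : Tendsto (fun s : ℝ => C / Real.log (1 / (s - 1))) (𝓝[>] 1) (𝓝 0) :=
  Chb_log.const_div_atTop C

theorem exists_frob_conj (Φ : FrobeniusData Γ) (U : Subgroup Γ) [U.Normal]
    (hU : IsOpen (U : Set Γ)) (g : Γ) (E : Set Nat.Primes) (hE : E.Finite) :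
    ∃ p ∉ E, IsConj (QuotientGroup.mk (Φ.frob p) : Γ ⧸ U) (QuotientGroup.mk g) := by
  by_contra hcon
  push Not at hcon
  have hfin : Finite (Γ ⧸ U) := U.quotient_finite_of_isOpen hU
  have h1 := Φ.chebotarev U hU g
  unfold HasDensity at h1
  have hsub : {p | IsConj (QuotientGroup.mk (Φ.frob p) : Γ ⧸ U) (QuotientGroup.mk g)} ⊆ E := by
    intro p hp
    by_contra hpE
    exact hcon p hpE hp
  have h2 : Tendsto (fun s : ℝ => primeSum {p | IsConj (QuotientGroup.mk (Φ.frob p) : Γ ⧸ U) (QuotientGroup.mk g)} s /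
      Real.log (1 / (s - 1))) (𝓝[>] 1) (𝓝 0) := by
    refine tendsto_of_tendsto_of_tendsto_of_le_of_le' tendsto_const_nhds (Chb_const (hE.toFinset.card : ℝ)) ?_ ?_
    · filter_upwards [Chb_log.eventually_gt_atTop 0] with s hs
      exact div_nonneg (Chb_nonneg _ _) hs.le
    · filter_upwards [Chb_log.eventually_gt_atTop 0, Chb_gt] with s hs hs1
      exact div_le_div_of_nonneg_right ((Chb_mono hs1 hsub).trans (Chb_finite hE hs1)) hs.le
  have h3 := tendsto_nhds_unique h1 h2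
  have h4 : 0 < Nat.card {x : Γ ⧸ U // IsConj x (QuotientGroup.mk g)} := by
    have : Nonempty {x : Γ ⧸ U // IsConj x (QuotientGroup.mk g)} := ⟨⟨QuotientGroup.mk g, IsConj.refl _⟩⟩
    exact Nat.card_pos
  have h5 : 0 < Nat.card (Γ ⧸ U) := Nat.card_pos
  have h6 : (0 : ℝ) < (Nat.card {x : Γ ⧸ U // IsConj x (QuotientGroup.mk g)} : ℝ) / (Nat.card (Γ ⧸ U) : ℝ) := by
    positivity
  linarith

theorem card_le_of_frob (Φ : FrobeniusData Γ) (U : Subgroup Γ) [U.Normal]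
    (hU : IsOpen (U : Set Γ)) (B : Set (Γ ⧸ U)) (hB : ∀ x ∈ B, ∀ y, IsConj x y → y ∈ B)
    (X E : Set Nat.Primes) (hE : E.Finite) (η : ℝ)
    (hX : ∀ᶠ s : ℝ in 𝓝[>] 1, primeSum X s ≤ η * Real.log (1 / (s - 1)))
    (hBX : ∀ p ∉ E, (QuotientGroup.mk (Φ.frob p) : Γ ⧸ U) ∈ B → p ∈ X) :
    (Nat.card B : ℝ) ≤ η * Nat.card (Γ ⧸ U) := by
  classical
  have hfin : Finite (Γ ⧸ U) := U.quotient_finite_of_isOpen hU
  have hft : Fintype (Γ ⧸ U) := Fintype.ofFinite _
  obtain ⟨c, hc⟩ : ∃ c : Γ ⧸ U → ℝ, c = fun y => (Nat.card {x : Γ ⧸ U // IsConj x y} : ℝ) := ⟨_, rfl⟩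
  have hc0 : ∀ y, 0 < c y := by
    intro y
    rw [hc]
    simp only
    have : Nonempty {x : Γ ⧸ U // IsConj x y} := ⟨⟨y, IsConj.refl _⟩⟩
    exact_mod_cast (Nat.card_pos : 0 < Nat.card {x : Γ ⧸ U // IsConj x y})
  have hcc : ∀ x y, IsConj x y → c x = c y := by
    intro x y hxy
    rw [hc]
    simp only
    congr 1
    refine Nat.card_congr (Equiv.subtypeEquivRight fun z => ?_)
    exact ⟨fun h => h.trans hxy, fun h => h.trans hxy.symm⟩
  obtain ⟨D, hD⟩ : ∃ D : Γ ⧸ U → Set Nat.Primes, D = fun y => {p | IsConj (QuotientGroup.mk (Φ.frob p) : Γ ⧸ U) y} :=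
    ⟨_, rfl⟩
  have hn0 : (0 : ℝ) < (Nat.card (Γ ⧸ U) : ℝ) := by
    exact_mod_cast (Nat.card_pos : 0 < Nat.card (Γ ⧸ U))
  have hdens : ∀ y, Tendsto (fun s : ℝ => primeSum (D y) s / Real.log (1 / (s - 1))) (𝓝[>] 1)
      (𝓝 (c y / (Nat.card (Γ ⧸ U) : ℝ))) := by
    intro y
    obtain ⟨g, rfl⟩ := QuotientGroup.mk_surjective y
    rw [hD, hc]
    exact Φ.chebotarev U hU g
  obtain ⟨Bf, hBf⟩ : ∃ Bf : Finset (Γ ⧸ U), Bf = Finset.univ.filter (fun y => y ∈ B) := ⟨_, rfl⟩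
  have hmem : ∀ y, y ∈ Bf ↔ y ∈ B := by
    intro y
    rw [hBf, Finset.mem_filter]
    exact ⟨fun h => h.2, fun h => ⟨Finset.mem_univ _, h⟩⟩
  have hcard : (Nat.card B : ℝ) = Bf.card := by
    rw [Nat.card_eq_fintype_card, ← Set.toFinset_card]
    congr 2
    ext y
    rw [Set.mem_toFinset, hmem]
  have hid : ∀ s : ℝ, 1 < s → primeSum {p | (QuotientGroup.mk (Φ.frob p) : Γ ⧸ U) ∈ B} s =
      ∑ y ∈ Bf, (1 / c y) * primeSum (D y) s := by
    intro s hs
    unfold primeSum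
    have e1 : ∀ y ∈ Bf, (1 / c y) * ∑' p : Nat.Primes, (D y).indicator (fun q : Nat.Primes => ((q : ℕ) : ℝ) ^ (-s)) p =
        ∑' p : Nat.Primes, (1 / c y) * (D y).indicator (fun q : Nat.Primes => ((q : ℕ) : ℝ) ^ (-s)) p :=
      fun y _ => tsum_mul_left.symm
    rw [Finset.sum_congr rfl e1, ← Summable.tsum_finsetSum fun y _ => (Chb_summable hs (D y)).mul_left (1 / c y)]
    refine tsum_congr fun p => ?_
    by_cases hp : (QuotientGroup.mk (Φ.frob p) : Γ ⧸ U) ∈ B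
    · rw [Set.indicator_of_mem (show p ∈ {p | (QuotientGroup.mk (Φ.frob p) : Γ ⧸ U) ∈ B} from hp)]
      have e2 : ∀ y ∈ Bf, (1 / c y) * (D y).indicator (fun q : Nat.Primes => ((q : ℕ) : ℝ) ^ (-s)) p =
          if IsConj (QuotientGroup.mk (Φ.frob p) : Γ ⧸ U) y then
            (1 / c (QuotientGroup.mk (Φ.frob p))) * ((p : ℕ) : ℝ) ^ (-s) else 0 := by
        intro y _
        by_cases hy : IsConj (QuotientGroup.mk (Φ.frob p) : Γ ⧸ U) y
        · rw [if_pos hy, Set.indicator_of_mem (show p ∈ D y by rw [hD]; exact hy), hcc _ _ hy]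
        · rw [if_neg hy, Set.indicator_of_notMem (show p ∉ D y by rw [hD]; exact hy), mul_zero]
      rw [Finset.sum_congr rfl e2, ← Finset.sum_filter, Finset.sum_const, nsmul_eq_mul]
      have e3 : ((Bf.filter fun y => IsConj (QuotientGroup.mk (Φ.frob p) : Γ ⧸ U) y).card : ℝ) =
          c (QuotientGroup.mk (Φ.frob p)) := by
        rw [hc]
        simp only
        rw [Nat.card_eq_fintype_card, Fintype.card_subtype]
        congr 2
        ext y
        rw [Finset.mem_filter, Finset.mem_filter, hmem]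
        exact ⟨fun h => ⟨Finset.mem_univ _, h.2.symm⟩, fun h => ⟨hB _ hp y h.2.symm, h.2.symm⟩⟩
      rw [e3, ← mul_assoc, mul_one_div, div_self (hc0 _).ne', one_mul]
    · rw [Set.indicator_of_notMem (show p ∉ {p | (QuotientGroup.mk (Φ.frob p) : Γ ⧸ U) ∈ B} from hp)]
      symm
      refine Finset.sum_eq_zero fun y hy => ?_
      have hy2 : p ∉ D y := by
        rw [hD]
        intro h
        exact hp (hB y ((hmem y).mp hy) _ (IsConj.symm h))
      rw [Set.indicator_of_notMem hy2, mul_zero]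
  have hlim : Tendsto (fun s : ℝ => primeSum {p | (QuotientGroup.mk (Φ.frob p) : Γ ⧸ U) ∈ B} s /
      Real.log (1 / (s - 1))) (𝓝[>] 1) (𝓝 ((Nat.card B : ℝ) / (Nat.card (Γ ⧸ U) : ℝ))) := by
    have h1 : Tendsto (fun s : ℝ => ∑ y ∈ Bf, (1 / c y) * (primeSum (D y) s / Real.log (1 / (s - 1)))) (𝓝[>] 1)
        (𝓝 (∑ y ∈ Bf, (1 / c y) * (c y / (Nat.card (Γ ⧸ U) : ℝ)))) :=
      tendsto_finsetSum _ fun y _ => (hdens y).const_mul _
    have h2 : ∑ y ∈ Bf, (1 / c y) * (c y / (Nat.card (Γ ⧸ U) : ℝ)) = (Nat.card B : ℝ) / (Nat.card (Γ ⧸ U) : ℝ) := by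
      have h3 : ∀ y ∈ Bf, (1 / c y) * (c y / (Nat.card (Γ ⧸ U) : ℝ)) = 1 / (Nat.card (Γ ⧸ U) : ℝ) := by
        intro y _
        have := (hc0 y).ne'
        field_simp
      rw [Finset.sum_congr rfl h3, Finset.sum_const, nsmul_eq_mul, hcard]
      ring
    rw [h2] at h1
    refine h1.congr' ?_
    filter_upwards [Chb_gt] with s hs
    rw [hid s hs, Finset.sum_div]
    refine Finset.sum_congr rfl fun y _ => ?_
    ring
  have hub : Tendsto (fun s : ℝ => η + (hE.toFinset.card : ℝ) / Real.log (1 / (s - 1))) (𝓝[>] 1) (𝓝 (η + 0)) :=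
    tendsto_const_nhds.add (Chb_const _)
  rw [add_zero] at hub
  have hle : (Nat.card B : ℝ) / (Nat.card (Γ ⧸ U) : ℝ) ≤ η := by
    refine le_of_tendsto_of_tendsto hlim hub ?_
    filter_upwards [Chb_gt, Chb_log.eventually_gt_atTop 0, hX] with s hs hl hXs
    have h1 : {p | (QuotientGroup.mk (Φ.frob p) : Γ ⧸ U) ∈ B} ⊆ X ∪ E := by
      intro p hp
      by_cases hpE : p ∈ E
      · exact Or.inr hpE
      · exact Or.inl (hBX p hpE hp)
    have h2 := (Chb_mono hs h1).trans (Chb_union hs X E)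
    have h3 := Chb_finite hE hs
    rw [div_le_iff₀ hl, add_mul, div_mul_cancel₀ _ hl.ne']
    linarith
  rwa [div_le_iff₀ hn0] at hle

theorem exists_good (Φ : FrobeniusData Γ) (U : Subgroup Γ) [U.Normal]
    (hU : IsOpen (U : Set Γ)) (Z : Set Γ) (hZU : ∀ g ∈ Z, ∀ u ∈ U, g * u ∈ Z)
    (hZc : ∀ g ∈ Z, ∀ h, h * g * h⁻¹ ∈ Z) (X E : Set Nat.Primes) (hE : E.Finite) (η : ℝ)
    (hη : 0 ≤ η)
    (hX : ∀ᶠ s : ℝ in 𝓝[>] 1, primeSum X s ≤ η * Real.log (1 / (s - 1)))
    (hZX : ∀ p ∉ E, Φ.frob p ∉ Z → p ∈ X) {d : ℕ} (hd : 2 * (d : ℝ) * η < 1) (h : Fin d → Γ)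
    (g : Γ) : ∃ s t : Γ, g * t = s ∧ (∀ j, s * h j ∈ Z) ∧ ∀ j, t * h j ∈ Z := by
  classical
  have hfin : Finite (Γ ⧸ U) := U.quotient_finite_of_isOpen hU
  have hft : Fintype (Γ ⧸ U) := Fintype.ofFinite _
  obtain ⟨B, hBdef⟩ : ∃ B : Set (Γ ⧸ U), B = {x | ∀ z ∈ Z, (QuotientGroup.mk z : Γ ⧸ U) ≠ x} := ⟨_, rfl⟩
  have hBm : ∀ x, x ∈ B ↔ ∀ z ∈ Z, (QuotientGroup.mk z : Γ ⧸ U) ≠ x := by
    intro x
    rw [hBdef]
    exact Iff.rfl
  have hlift : ∀ w : Γ, (QuotientGroup.mk w : Γ ⧸ U) ∉ B → w ∈ Z := by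
    intro w hw
    rw [hBm] at hw
    push Not at hw
    obtain ⟨z, hz, hzw⟩ := hw
    have h1 : z⁻¹ * w ∈ U := QuotientGroup.eq.mp hzw
    have h2 := hZU z hz _ h1
    rwa [mul_inv_cancel_left] at h2
  have hBc : ∀ x ∈ B, ∀ y, IsConj x y → y ∈ B := by
    intro x hx y hxy
    rw [hBm] at hx ⊢
    intro z hz hzy
    obtain ⟨c, hcy⟩ := isConj_iff.mp hxy
    obtain ⟨c', rfl⟩ := QuotientGroup.mk_surjective c
    have h1 := hx _ (hZc z hz c'⁻¹)
    refine h1 ?_
    rw [QuotientGroup.mk_mul, QuotientGroup.mk_mul, hzy, ← hcy, inv_inv, QuotientGroup.mk_inv]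
    group
  have hcard := card_le_of_frob Φ U hU B hBc X E hE η hX (fun p hp hpB => hZX p hp (by
    intro hpZ
    exact (hBm _).mp hpB _ hpZ rfl))
  have hn0 : (0 : ℝ) < (Nat.card (Γ ⧸ U) : ℝ) := by
    exact_mod_cast (Nat.card_pos : 0 < Nat.card (Γ ⧸ U))
  obtain ⟨Bf, hBf⟩ : ∃ Bf : Finset (Γ ⧸ U), Bf = Finset.univ.filter (fun y => y ∈ B) := ⟨_, rfl⟩
  have hmem : ∀ y, y ∈ Bf ↔ y ∈ B := by
    intro y
    rw [hBf, Finset.mem_filter]
    exact ⟨fun h => h.2, fun h => ⟨Finset.mem_univ _, h⟩⟩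
  have hcard' : (Nat.card B : ℝ) = Bf.card := by
    rw [Nat.card_eq_fintype_card, ← Set.toFinset_card]
    congr 2
    ext y
    rw [Set.mem_toFinset, hmem]
  have hside : ∀ a : Γ ⧸ U, (Finset.univ.biUnion fun j : Fin d =>
      Finset.univ.filter fun x : Γ ⧸ U => a * x * (QuotientGroup.mk (h j) : Γ ⧸ U) ∈ Bf).card ≤ d * Bf.card := by
    intro a
    refine Finset.card_biUnion_le.trans ?_
    refine (Finset.sum_le_card_nsmul _ _ Bf.card fun j _ => ?_).trans (by simp)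
    refine Finset.card_le_card_of_injOn (fun x => a * x * (QuotientGroup.mk (h j) : Γ ⧸ U)) ?_ ?_
    · intro x hx
      exact (Finset.mem_filter.mp hx).2
    · intro x _ y _ hxy
      exact mul_left_cancel (mul_right_cancel hxy)
  obtain ⟨x, hx⟩ : ∃ x : Γ ⧸ U, x ∉ (Finset.univ.biUnion fun j : Fin d =>
      Finset.univ.filter fun x : Γ ⧸ U => 1 * x * (QuotientGroup.mk (h j) : Γ ⧸ U) ∈ Bf) ∪
      (Finset.univ.biUnion fun j : Fin d =>
      Finset.univ.filter fun x : Γ ⧸ U => (QuotientGroup.mk g : Γ ⧸ U)⁻¹ * x * (QuotientGroup.mk (h j) : Γ ⧸ U) ∈ Bf) := by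
    by_contra hcon
    push Not at hcon
    have h1 : (Finset.univ : Finset (Γ ⧸ U)) ⊆ _ := fun x _ => hcon x
    have h2 := (Finset.card_le_card h1).trans ((Finset.card_union_le _ _).trans (add_le_add (hside 1) (hside _)))
    rw [Finset.card_univ, ← Nat.card_eq_fintype_card] at h2
    have h3 : (Nat.card (Γ ⧸ U) : ℝ) ≤ d * Bf.card + d * Bf.card := by exact_mod_cast h2
    rw [hcard'] at hcard
    have h4 : (d : ℝ) * Bf.card ≤ d * (η * Nat.card (Γ ⧸ U)) := mul_le_mul_of_nonneg_left hcard (Nat.cast_nonneg d)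
    have h5 : (2 * (d : ℝ) * η) * Nat.card (Γ ⧸ U) < 1 * Nat.card (Γ ⧸ U) := mul_lt_mul_of_pos_right hd hn0
    linarith
  rw [Finset.mem_union, not_or, Finset.mem_biUnion, Finset.mem_biUnion] at hx
  obtain ⟨hx1, hx2⟩ := hx
  push Not at hx1 hx2
  obtain ⟨s, rfl⟩ := QuotientGroup.mk_surjective x
  refine ⟨s, g⁻¹ * s, by group, fun j => hlift _ fun hb => ?_, fun j => hlift _ fun hb => ?_⟩
  · refine hx1 j (Finset.mem_univ _) (Finset.mem_filter.mpr ⟨Finset.mem_univ _, ?_⟩)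
    rw [hmem, one_mul]
    exact hb
  · refine hx2 j (Finset.mem_univ _) (Finset.mem_filter.mpr ⟨Finset.mem_univ _, ?_⟩)
    rw [hmem]
    exact hb

end Pool.Agent.GalSide
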