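import Pool.Agent.W_7742e_h15.Defs

/-!
# Descent from `F` to an algebraically closed field

Consider the `K`-algebra `B` generated by the entries of unknown matrices `X g`, `g ∈ G`, with the
relations `X 1 = 1`, `X (g h) = X g * X h`, `tr (X g) = t g`.  It is of finite type (`G` finite)
and nonzero, because `ρ` gives a homomorphism `B → F`.  The residue field at a maximal ideal is
finite over `K` (`finite_of_finite_type_of_isJacobsonRing`) and embeds into `C` over `σ`.
-/

set_option autoImplicit false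

noncomputable section

namespace Pool.Agent.GalSide

/-- A solvable finite system of polynomial equations over `K` has a solution in every
algebraically closed field `C` containing `K`. -/
theorem exists_solution {K F C ν : Type} [Field K] [Field F] [Field C] [IsAlgClosed C]
    [Finite ν] (φ : K →+* F) (σ : K →+* C) (I : Set (MvPolynomial ν K)) (x : ν → F)
    (hx : ∀ p ∈ I, MvPolynomial.eval₂ φ x p = 0) :
    ∃ y : ν → C, ∀ p ∈ I, MvPolynomial.eval₂ σ y p = 0 := by
  classical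
  set ev : MvPolynomial ν K →+* F := MvPolynomial.eval₂Hom φ x with hev
  have hJ : RingHom.ker ev ≠ ⊤ := RingHom.ker_ne_top ev
  obtain ⟨M, hM, hJM⟩ := Ideal.exists_le_maximal _ hJ
  let _ : Field (MvPolynomial ν K ⧸ M) := Ideal.Quotient.field M
  let _ : Algebra K C := σ.toAlgebra
  have : Module.Finite K (MvPolynomial ν K ⧸ M) :=
    finite_of_finite_type_of_isJacobsonRing K (MvPolynomial ν K ⧸ M)
  have : Algebra.IsAlgebraic K (MvPolynomial ν K ⧸ M) := Algebra.IsAlgebraic.of_finite _ _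
  let g : (MvPolynomial ν K ⧸ M) →ₐ[K] C := IsAlgClosed.lift
  refine ⟨fun i => g (Ideal.Quotient.mk M (MvPolynomial.X i)), fun p hp => ?_⟩
  have h1 : MvPolynomial.eval₂Hom σ (fun i => g (Ideal.Quotient.mk M (MvPolynomial.X i))) =
      (g : (MvPolynomial ν K ⧸ M) →+* C).comp (Ideal.Quotient.mk M) := by
    apply MvPolynomial.ringHom_ext
    · intro a
      rw [MvPolynomial.coe_eval₂Hom, MvPolynomial.eval₂_C]
      exact (g.commutes a).symm
    · intro i
      rw [MvPolynomial.coe_eval₂Hom, MvPolynomial.eval₂_X]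
      rfl
  have h2 : MvPolynomial.eval₂ σ (fun i => g (Ideal.Quotient.mk M (MvPolynomial.X i))) p =
      g (Ideal.Quotient.mk M p) := by
    have := congrArg (fun f : MvPolynomial ν K →+* C => f p) h1
    exact this
  rw [h2]
  have h3 : p ∈ M := hJM (by
    rw [RingHom.mem_ker]
    exact hx p hp)
  rw [Ideal.Quotient.eq_zero_iff_mem.2 h3, map_zero]

/-- The matrix of unknowns. -/
def Dsc_X (G K : Type) [Field K] (N : ℕ) (g : G) :
    Matrix (Fin N) (Fin N) (MvPolynomial (G × Fin N × Fin N) K) :=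
  Matrix.of fun i j => MvPolynomial.X (g, i, j)

/-- The matrix of values. -/
def Dsc_Y {G E : Type} {N : ℕ} (y : G × Fin N × Fin N → E) (g : G) : Matrix (Fin N) (Fin N) E :=
  Matrix.of fun i j => y (g, i, j)

/-- The equations. -/
def Dsc_I {G K : Type} [Group G] [Field K] (N : ℕ) (t : G → K) :
    Set (MvPolynomial (G × Fin N × Fin N) K) :=
  {p | (∃ i j, p = (Dsc_X G K N 1 - 1) i j) ∨
    (∃ g h i j, p = (Dsc_X G K N (g * h) - Dsc_X G K N g * Dsc_X G K N h) i j) ∨
    ∃ g, p = (Dsc_X G K N g).trace - MvPolynomial.C (t g)}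

theorem Dsc_map {G K E : Type} [Field K] [Field E] (s : K →+* E) {N : ℕ}
    (y : G × Fin N × Fin N → E) (g : G) :
    (MvPolynomial.eval₂Hom s y).mapMatrix (Dsc_X G K N g) = Dsc_Y y g := by
  ext i j
  simp [Dsc_X, Dsc_Y]

theorem Dsc_iff {G K E : Type} [Group G] [Field K] [Field E] (s : K →+* E) {N : ℕ} (t : G → K)
    (y : G × Fin N × Fin N → E) :
    (∀ p ∈ Dsc_I N t, MvPolynomial.eval₂ s y p = 0) ↔
      Dsc_Y y 1 = 1 ∧ (∀ g h, Dsc_Y y (g * h) = Dsc_Y y g * Dsc_Y y h) ∧
        ∀ g, (Dsc_Y y g).trace = s (t g) := by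
  have hent : ∀ (A : Matrix (Fin N) (Fin N) (MvPolynomial (G × Fin N × Fin N) K)) (i j : Fin N),
      MvPolynomial.eval₂ s y (A i j) = (MvPolynomial.eval₂Hom s y).mapMatrix A i j := by
    intro A i j
    rfl
  have htr : ∀ A : Matrix (Fin N) (Fin N) (MvPolynomial (G × Fin N × Fin N) K),
      MvPolynomial.eval₂ s y A.trace = ((MvPolynomial.eval₂Hom s y).mapMatrix A).trace := by
    intro A
    rw [← MvPolynomial.coe_eval₂Hom, Matrix.trace, map_sum]
    rfl
  constructor
  · intro h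
    refine ⟨?_, ?_, ?_⟩
    · ext i j
      have h1 := h _ (Or.inl ⟨i, j, rfl⟩)
      rw [hent, map_sub, map_one, Dsc_map, Matrix.sub_apply] at h1
      exact sub_eq_zero.1 h1
    · intro g g'
      ext i j
      have h1 := h _ (Or.inr (Or.inl ⟨g, g', i, j, rfl⟩))
      rw [hent, map_sub, map_mul, Dsc_map, Dsc_map, Dsc_map, Matrix.sub_apply] at h1
      exact sub_eq_zero.1 h1
    · intro g
      have h1 := h _ (Or.inr (Or.inr ⟨g, rfl⟩))
      rw [MvPolynomial.eval₂_sub, htr, Dsc_map, MvPolynomial.eval₂_C] at h1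
      exact sub_eq_zero.1 h1
  · rintro ⟨h1, h2, h3⟩ p (⟨i, j, rfl⟩ | ⟨g, g', i, j, rfl⟩ | ⟨g, rfl⟩)
    · rw [hent, map_sub, map_one, Dsc_map, h1, sub_self]
      rfl
    · rw [hent, map_sub, map_mul, Dsc_map, Dsc_map, Dsc_map, h2, sub_self]
      rfl
    · rw [MvPolynomial.eval₂_sub, htr, Dsc_map, MvPolynomial.eval₂_C, h3, sub_self]

theorem exists_descent {G K F C : Type} [Group G] [Finite G] [Field K] [Field F] [Field C]
    [IsAlgClosed C] (φ : K →+* F) (σ : K →+* C) {N : ℕ} (ρ : G →* Matrix (Fin N) (Fin N) F)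
    (t : G → K) (ht : ∀ g, (ρ g).trace = φ (t g)) :
    ∃ ρ' : G →* Matrix (Fin N) (Fin N) C, ∀ g, (ρ' g).trace = σ (t g) := by
  have h1 : ∀ p ∈ Dsc_I N t, MvPolynomial.eval₂ φ (fun a : G × Fin N × Fin N => ρ a.1 a.2.1 a.2.2) p = 0 := by
    rw [Dsc_iff]
    have hY : ∀ g, Dsc_Y (fun a : G × Fin N × Fin N => ρ a.1 a.2.1 a.2.2) g = ρ g := by
      intro g
      ext i j
      rfl
    refine ⟨?_, ?_, ?_⟩
    · rw [hY, map_one]
    · intro g h
      rw [hY, hY, hY, map_mul]
    · intro g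
      rw [hY, ht]
  obtain ⟨y, hy⟩ := exists_solution φ σ (Dsc_I N t) _ h1
  rw [Dsc_iff] at hy
  exact ⟨{ toFun := Dsc_Y y, map_one' := hy.1, map_mul' := hy.2.1 }, hy.2.2⟩

end Pool.Agent.GalSide
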