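import Pool.Agent.W_7742e_h15.Chb

/-!
# Irreducibility

Let `ρ` have open kernel `U` and trace `χ`, a class function on the finite group `G = Γ ⧸ U`, and
let `χ (frob p) = c p` for almost all `p`, with `∑ |c p| ^ 2 p ^ (-s) ≤ (1 + ε) log (1 / (s - 1))`
for `s` close to `1`, for every `ε > 0`.  By the density theorem (decompose into the sets where
`frob p` lies in a given class) `(1 / card G) ∑ g, |χ g| ^ 2 ≤ 1`.  If `W` is a stable subspace,
`W ≠ ⊥, ⊤`, then there is a stable complement (Maschke), `χ = χ₁ + χ₂`, and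
`(1 / card G) ∑ g, |χ g| ^ 2 ≥ 2`, because `(1 / card G) ∑ g, χᵢ g * conj (χⱼ g)` is the dimension
of the space of equivariant maps, which is `≥ 1` for `i = j` and `≥ 0` in general
(`FDRep.average_char_eq_finrank_invariants` or `Representation.average...`).
-/

set_option autoImplicit false

noncomputable section

open Filter Topology
open scoped ComplexOrder

namespace Pool.Agent.GalSide

variable {Γ : Type} [Group Γ] [TopologicalSpace Γ] [IsTopologicalGroup Γ] [CompactSpace Γ]

theorem irr_tendsto_log_inv : Tendsto (fun s : ℝ => Real.log (1 / (s - 1))) (𝓝[>] 1) atTop := by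
  have h1 : Tendsto (fun s : ℝ => s - 1) (𝓝[>] 1) (𝓝[>] 0) := by
    refine tendsto_nhdsWithin_iff.2 ⟨?_, ?_⟩
    · have : Tendsto (fun s : ℝ => s - 1) (𝓝 1) (𝓝 (1 - 1)) := tendsto_id.sub_const 1
      rw [sub_self] at this
      exact this.mono_left nhdsWithin_le_nhds
    · filter_upwards [self_mem_nhdsWithin] with s hs
      exact sub_pos.2 (Set.mem_Ioi.1 hs)
  have h2 : Tendsto (fun s : ℝ => (s - 1)⁻¹) (𝓝[>] 1) atTop := tendsto_inv_nhdsGT_zero.comp h1
  simp only [one_div]
  exact Real.tendsto_log_atTop.comp h2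

theorem irr_summable_prime_rpow {s : ℝ} (hs : 1 < s) :
    Summable (fun p : Nat.Primes => ((p : ℕ) : ℝ) ^ (-s)) :=
  Nat.Primes.summable_rpow.2 (by linarith)

/-- The mean value of `|χ| ^ 2`. -/
theorem mean_le_one (Φ : FrobeniusData Γ) (U : Subgroup Γ) [U.Normal] (hU : IsOpen (U : Set Γ))
    (f : Γ ⧸ U → ℝ) (hf : ∀ x y, IsConj x y → f x = f y) (hf0 : ∀ x, 0 ≤ f x)
    (S : Set Nat.Primes) (hS : S.Finite) (c : Nat.Primes → ℝ)
    (hc : ∀ p ∉ S, f (QuotientGroup.mk (Φ.frob p)) = c p) (hc0 : ∀ p, 0 ≤ c p)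
    (hL : ∀ ε : ℝ, 0 < ε → LogBound (1 + ε) c) [Fintype (Γ ⧸ U)] :
    ∑ x : Γ ⧸ U, f x ≤ Fintype.card (Γ ⧸ U) := by
  classical
  let G := Γ ⧸ U
  let F : Nat.Primes → Γ ⧸ U := fun p => QuotientGroup.mk (Φ.frob p)
  let X : Γ ⧸ U → Set Nat.Primes := fun x => {p | IsConj (F p) x}
  let cl : Γ ⧸ U → ℝ := fun x => (Nat.card {y : Γ ⧸ U // IsConj y x} : ℝ)
  have hcl : ∀ x, 0 < cl x := by
    intro x
    have : Nonempty {y : Γ ⧸ U // IsConj y x} := ⟨⟨x, IsConj.refl x⟩⟩
    exact Nat.cast_pos.2 Nat.card_pos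
  have hd : ∀ x, HasDensity (X x) (cl x / (Nat.card (Γ ⧸ U) : ℝ)) := by
    intro x
    obtain ⟨g, rfl⟩ := QuotientGroup.mk_surjective x
    exact Φ.chebotarev U hU g
  let w : Γ ⧸ U → ℝ := fun x => f x / cl x
  have hw : ∀ x, 0 ≤ w x := fun x => div_nonneg (hf0 x) (hcl x).le
  -- the decomposition of `f`
  have hdec : ∀ y : Γ ⧸ U, ∑ x : Γ ⧸ U, w x * (if IsConj y x then 1 else 0) = f y := by
    intro y
    have h1 : ∀ x : Γ ⧸ U, w x * (if IsConj y x then (1 : ℝ) else 0) =
        if IsConj y x then f y / cl y else 0 := by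
      intro x
      by_cases h : IsConj y x
      · rw [if_pos h, if_pos h, mul_one]
        show f x / cl x = f y / cl y
        have h2 : cl x = cl y := by
          show (Nat.card {z : Γ ⧸ U // IsConj z x} : ℝ) = (Nat.card {z : Γ ⧸ U // IsConj z y} : ℝ)
          congr 1
          refine Nat.card_congr (Equiv.subtypeEquivRight fun z => ?_)
          exact ⟨fun hz => hz.trans h.symm, fun hz => hz.trans h⟩
        rw [h2, hf y x h]
      · rw [if_neg h, if_neg h, mul_zero]
    rw [Finset.sum_congr rfl fun x _ => h1 x, ← Finset.sum_filter, Finset.sum_const,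
      nsmul_eq_mul]
    have h3 : ((Finset.univ.filter fun x : Γ ⧸ U => IsConj y x).card : ℝ) = cl y := by
      show _ = (Nat.card {z : Γ ⧸ U // IsConj z y} : ℝ)
      rw [Nat.card_eq_fintype_card, Fintype.card_subtype]
      congr 2
      ext z
      simp only [Finset.mem_filter, Finset.mem_univ, true_and]
      exact isConj_comm
    rw [h3, mul_div_cancel₀ _ (hcl y).ne']
  let K : ℝ := ∑ p ∈ hS.toFinset, f (F p)
  have hmain : ∀ ε : ℝ, 0 < ε → ∀ᶠ s : ℝ in 𝓝[>] 1,
      ∑ x : Γ ⧸ U, w x * primeSum (X x) s ≤ (1 + ε) * Real.log (1 / (s - 1)) + K := by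
    intro ε hε
    filter_upwards [hL ε hε, self_mem_nhdsWithin] with s hs hs1
    obtain ⟨hsum, hle⟩ := hs
    have hsp := irr_summable_prime_rpow (show (1 : ℝ) < s from hs1)
    have hp0 : ∀ p : Nat.Primes, 0 ≤ ((p : ℕ) : ℝ) ^ (-s) := fun p =>
      Real.rpow_nonneg (Nat.cast_nonneg _) _
    have hp1 : ∀ p : Nat.Primes, ((p : ℕ) : ℝ) ^ (-s) ≤ 1 := fun p => by
      refine Real.rpow_le_one_of_one_le_of_nonpos ?_ ?_
      · exact_mod_cast p.2.one_lt.le
      · have : (1 : ℝ) < s := hs1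
        linarith
    have h1 : ∀ x, Summable (fun p : Nat.Primes => w x *
        (X x).indicator (fun q : Nat.Primes => ((q : ℕ) : ℝ) ^ (-s)) p) := fun x =>
      (hsp.indicator (X x)).mul_left (w x)
    have h2 : ∑ x : Γ ⧸ U, w x * primeSum (X x) s =
        ∑' p : Nat.Primes, f (F p) * ((p : ℕ) : ℝ) ^ (-s) := by
      have h3 : ∀ x, w x * primeSum (X x) s = ∑' p : Nat.Primes, w x *
          (X x).indicator (fun q : Nat.Primes => ((q : ℕ) : ℝ) ^ (-s)) p := fun x => by
        rw [tsum_mul_left]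
        rfl
      rw [Finset.sum_congr rfl fun x _ => h3 x, ← Summable.tsum_finsetSum fun x _ => h1 x]
      refine tsum_congr fun p => ?_
      rw [← hdec (F p), Finset.sum_mul]
      refine Finset.sum_congr rfl fun x _ => ?_
      rw [mul_assoc]
      congr 1
      by_cases h : IsConj (F p) x
      · rw [Set.indicator_of_mem (show p ∈ X x from h), if_pos h, one_mul]
      · rw [Set.indicator_of_notMem (show p ∉ X x from h), if_neg h, zero_mul]
    rw [h2]
    have h4 : ∀ p : Nat.Primes, f (F p) * ((p : ℕ) : ℝ) ^ (-s) ≤ c p * ((p : ℕ) : ℝ) ^ (-s) +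
        (if p ∈ hS.toFinset then f (F p) else 0) := by
      intro p
      by_cases h : p ∈ S
      · rw [if_pos (hS.mem_toFinset.2 h)]
        have h5 : f (F p) * ((p : ℕ) : ℝ) ^ (-s) ≤ f (F p) :=
          mul_le_of_le_one_right (hf0 _) (hp1 p)
        have h6 : 0 ≤ c p * ((p : ℕ) : ℝ) ^ (-s) := mul_nonneg (hc0 p) (hp0 p)
        linarith
      · rw [if_neg (fun h' => h (hS.mem_toFinset.1 h')), add_zero]
        rw [show f (F p) = c p from hc p h]
    have h7 : HasSum (fun p : Nat.Primes => if p ∈ hS.toFinset then f (F p) else 0) K := by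
      have h9 : HasSum (fun p : Nat.Primes => if p ∈ hS.toFinset then f (F p) else 0)
          (∑ p ∈ hS.toFinset, if p ∈ hS.toFinset then f (F p) else 0) :=
        hasSum_sum_of_ne_finset_zero fun p hp => if_neg hp
      rwa [Finset.sum_congr rfl (fun p hp => if_pos hp)] at h9
    have h8 : Summable (fun p : Nat.Primes => f (F p) * ((p : ℕ) : ℝ) ^ (-s)) :=
      Summable.of_nonneg_of_le (fun p => mul_nonneg (hf0 _) (hp0 p)) h4 (hsum.add h7.summable)
    calc ∑' p : Nat.Primes, f (F p) * ((p : ℕ) : ℝ) ^ (-s)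
        ≤ ∑' p : Nat.Primes, (c p * ((p : ℕ) : ℝ) ^ (-s) +
          (if p ∈ hS.toFinset then f (F p) else 0)) :=
          Summable.tsum_le_tsum h4 h8 (hsum.add h7.summable)
      _ = ∑' p : Nat.Primes, c p * ((p : ℕ) : ℝ) ^ (-s) + K := by
          rw [Summable.tsum_add hsum h7.summable, h7.tsum_eq]
      _ ≤ (1 + ε) * Real.log (1 / (s - 1)) + K := by linarith
  have hlim : Tendsto (fun s : ℝ => (∑ x : Γ ⧸ U, w x * primeSum (X x) s) /
      Real.log (1 / (s - 1))) (𝓝[>] 1)
      (𝓝 (∑ x : Γ ⧸ U, w x * (cl x / (Nat.card (Γ ⧸ U) : ℝ)))) := by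
    simp only [Finset.sum_div, mul_div_assoc]
    exact tendsto_finsetSum _ fun x _ => (hd x).const_mul (w x)
  have hval : ∑ x : Γ ⧸ U, w x * (cl x / (Nat.card (Γ ⧸ U) : ℝ)) =
      (∑ x : Γ ⧸ U, f x) / (Fintype.card (Γ ⧸ U) : ℝ) := by
    rw [Finset.sum_div]
    refine Finset.sum_congr rfl fun x _ => ?_
    show f x / cl x * (cl x / (Nat.card (Γ ⧸ U) : ℝ)) = _
    rw [Nat.card_eq_fintype_card, ← mul_div_assoc, div_mul_cancel₀ _ (hcl x).ne']
  have hcard : (0 : ℝ) < (Fintype.card (Γ ⧸ U) : ℝ) := Nat.cast_pos.2 Fintype.card_pos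
  have hle : ∀ ε : ℝ, 0 < ε → (∑ x : Γ ⧸ U, f x) / (Fintype.card (Γ ⧸ U) : ℝ) ≤ 1 + ε := by
    intro ε hε
    rw [← hval]
    have h1 : Tendsto (fun s : ℝ => (1 + ε) + K / Real.log (1 / (s - 1))) (𝓝[>] 1)
        (𝓝 ((1 + ε) + 0)) := tendsto_const_nhds.add (irr_tendsto_log_inv.const_div_atTop K)
    rw [add_zero] at h1
    refine le_of_tendsto_of_tendsto hlim h1 ?_
    filter_upwards [hmain ε hε, irr_tendsto_log_inv.eventually_gt_atTop 0] with s hs hpos
    rw [div_le_iff₀ hpos, add_mul, div_mul_cancel₀ _ hpos.ne']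
    exact hs
  have h1 : (∑ x : Γ ⧸ U, f x) / (Fintype.card (Γ ⧸ U) : ℝ) ≤ 1 :=
    le_of_forall_pos_le_add fun ε hε => hle ε hε
  rwa [div_le_one hcard] at h1

/-- The trace of the inverse. -/
theorem irr_trace_inv_eq {G : Type} [Group G] [Fintype G] {N : ℕ}
    (ρ : G →* Matrix (Fin N) (Fin N) ℂ) (h : G) :
    star (ρ h⁻¹).trace = (ρ h).trace := by
  classical
  let H : Matrix (Fin N) (Fin N) ℂ := ∑ g : G, (ρ g).conjTranspose * ρ g
  have hH : (ρ h⁻¹).conjTranspose * H = H * ρ h := by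
    have h1 : (ρ h⁻¹).conjTranspose * H =
        ∑ g : G, (ρ (g * h⁻¹)).conjTranspose * ρ g := by
      simp only [H, Finset.mul_sum]
      refine Finset.sum_congr rfl fun g _ => ?_
      rw [map_mul, Matrix.conjTranspose_mul, Matrix.mul_assoc]
    have h2 : H * ρ h = ∑ g : G, (ρ g).conjTranspose * ρ (g * h) := by
      simp only [H, Finset.sum_mul]
      refine Finset.sum_congr rfl fun g _ => ?_
      rw [map_mul, Matrix.mul_assoc]
    rw [h1, h2]
    refine Fintype.sum_equiv (Equiv.mulRight h⁻¹) _ _ fun g => ?_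
    simp
  have hpos : H.PosDef := by
    have h1 : H = 1 + ∑ g ∈ Finset.univ.erase (1 : G), (ρ g).conjTranspose * ρ g := by
      simp only [H]
      rw [← Finset.add_sum_erase Finset.univ _ (Finset.mem_univ (1 : G)), map_one,
        Matrix.conjTranspose_one, Matrix.one_mul]
    rw [h1]
    refine Matrix.PosDef.one.add_posSemidef ?_
    exact Matrix.posSemidef_sum _ fun g _ => Matrix.posSemidef_conjTranspose_mul_self _
  have hu : IsUnit H := hpos.isUnit
  have hdet : IsUnit H.det := (Matrix.isUnit_iff_isUnit_det H).1 hu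
  have h3 : (ρ h⁻¹).conjTranspose = H * ρ h * H⁻¹ := by
    rw [← hH, Matrix.mul_assoc, Matrix.mul_nonsing_inv _ hdet, Matrix.mul_one]
  rw [← Matrix.trace_conjTranspose, h3, Matrix.trace_mul_comm, ← Matrix.mul_assoc,
    Matrix.nonsing_inv_mul _ hdet, Matrix.one_mul]

/-- A representation of a finite group over `ℂ` whose character has mean square at most one has
no stable subspaces. -/
theorem eq_bot_or_eq_top {G : Type} [Group G] [Fintype G] {N : ℕ}
    (ρ : G →* Matrix (Fin N) (Fin N) ℂ)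
    (h : ∑ g, ‖(ρ g).trace‖ ^ 2 ≤ Fintype.card G) (W : Submodule ℂ (Fin N → ℂ))
    (hW : ∀ g, ∀ w ∈ W, (ρ g).mulVec w ∈ W) : W = ⊥ ∨ W = ⊤ := by
  classical
  by_contra hcon
  rw [not_or] at hcon
  obtain ⟨hb, ht⟩ := hcon
  let r : Representation ℂ G (Fin N → ℂ) :=
    (Matrix.toLinAlgEquiv' (R := ℂ) (n := Fin N)).toMonoidHom.comp ρ
  have hr : ∀ g v, r g v = (ρ g).mulVec v := fun g v => rfl
  have hchar : ∀ g, r.character g = (ρ g).trace := fun g => Matrix.trace_toLin'_eq (ρ g)
  have hcard0 : (Nat.card G : ℂ) ≠ 0 := Nat.cast_ne_zero.2 Nat.card_pos.ne'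
  let _ : Invertible (Nat.card G : ℂ) := invertibleOfNonzero hcard0
  have key := Representation.card_inv_mul_sum_char_eq_finrank (Representation.linHom r r)
  -- the sum
  have hsum : ∑ g : G, (Representation.linHom r r).character g =
      ((∑ g : G, ‖(ρ g).trace‖ ^ 2 : ℝ) : ℂ) := by
    rw [Complex.ofReal_sum]
    refine Finset.sum_congr rfl fun g _ => ?_
    rw [Representation.char_linHom, hchar, hchar]
    have h1 : (ρ g⁻¹).trace = star (ρ g).trace := by
      have := irr_trace_inv_eq ρ g⁻¹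
      rw [inv_inv] at this
      exact this.symm
    rw [h1, Complex.ofReal_pow]
    exact Complex.conj_mul' _
  rw [hsum] at key
  -- two independent equivariant maps
  obtain ⟨p, hp⟩ := LinearMap.exists_leftInverse_of_injective W.subtype W.ker_subtype
  have hpw : ∀ w (hw : w ∈ W), ((p w : W) : Fin N → ℂ) = w := by
    intro w hw
    have := LinearMap.congr_fun hp ⟨w, hw⟩
    simp only [LinearMap.comp_apply, Submodule.subtype_apply, LinearMap.id_apply] at this
    rw [this]
  let P : (Fin N → ℂ) →ₗ[ℂ] (Fin N → ℂ) := W.subtype ∘ₗ p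
  let Q : (Fin N → ℂ) →ₗ[ℂ] (Fin N → ℂ) := ∑ g : G, r g ∘ₗ P ∘ₗ r g⁻¹
  have hQ : ∀ v, Q v = ∑ g : G, r g (P (r g⁻¹ v)) := by
    intro v
    simp only [Q, LinearMap.sum_apply, LinearMap.comp_apply]
  have hQW : ∀ v, Q v ∈ W := by
    intro v
    rw [hQ]
    exact W.sum_mem fun g _ => hW g _ (p _).2
  have hQw : ∀ w ∈ W, Q w = (Fintype.card G : ℂ) • w := by
    intro w hw
    rw [hQ]
    have h1 : ∀ g : G, r g (P (r g⁻¹ w)) = w := by
      intro g
      have h2 : P (r g⁻¹ w) = r g⁻¹ w := hpw _ (hW g⁻¹ w hw)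
      rw [h2, ← Module.End.mul_apply, ← map_mul, mul_inv_cancel, map_one, Module.End.one_apply]
    rw [Finset.sum_congr rfl fun g _ => h1 g, Finset.sum_const, Finset.card_univ,
      Nat.cast_smul_eq_nsmul]
  have hQinv : Q ∈ (Representation.linHom r r).invariants := by
    intro k
    rw [Representation.linHom_apply]
    refine LinearMap.ext fun v => ?_
    show r k (Q (r k⁻¹ v)) = Q v
    rw [hQ, hQ, map_sum]
    refine Fintype.sum_equiv (Equiv.mulLeft k) _ _ fun g => ?_
    rw [Equiv.coe_mulLeft, mul_inv_rev, map_mul, map_mul, Module.End.mul_apply,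
      Module.End.mul_apply]
  have h1inv : (LinearMap.id : (Fin N → ℂ) →ₗ[ℂ] (Fin N → ℂ)) ∈
      (Representation.linHom r r).invariants := by
    intro k
    rw [Representation.linHom_apply]
    refine LinearMap.ext fun v => ?_
    show r k (r k⁻¹ v) = v
    rw [← Module.End.mul_apply, ← map_mul, mul_inv_cancel, map_one, Module.End.one_apply]
  have hli : LinearIndependent ℂ
      ![(LinearMap.id : (Fin N → ℂ) →ₗ[ℂ] (Fin N → ℂ)), Q] := by
    rw [LinearIndependent.pair_iff]
    intro a b hab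
    have hab' : ∀ v : Fin N → ℂ, a • v + b • Q v = 0 := by
      intro v
      have := LinearMap.congr_fun hab v
      simpa only [LinearMap.add_apply, LinearMap.smul_apply, LinearMap.id_apply,
        LinearMap.zero_apply] using this
    have ha : a = 0 := by
      by_contra ha
      apply ht
      rw [Submodule.eq_top_iff']
      intro v
      have h1 : a • v ∈ W := by
        rw [eq_neg_of_add_eq_zero_left (hab' v)]
        exact W.neg_mem (W.smul_mem b (hQW v))
      exact (W.smul_mem_iff ha).1 h1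
    subst ha
    refine ⟨rfl, ?_⟩
    obtain ⟨w, hw, hw0⟩ := (Submodule.ne_bot_iff W).1 hb
    have h1 := hab' w
    rw [zero_smul, zero_add, hQw w hw, smul_smul, smul_eq_zero] at h1
    rcases h1 with h1 | h1
    · rcases mul_eq_zero.1 h1 with h1 | h1
      · exact h1
      · exact absurd h1 (Nat.cast_ne_zero.2 Fintype.card_pos.ne')
    · exact absurd h1 hw0
  have h2 : 2 ≤ Module.finrank ℂ (Representation.linHom r r).invariants := by
    have h21 := finrank_span_eq_card hli
    have h22 : Submodule.span ℂ (Set.range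
        ![(LinearMap.id : (Fin N → ℂ) →ₗ[ℂ] (Fin N → ℂ)), Q]) ≤
        (Representation.linHom r r).invariants := by
      rw [Submodule.span_le]
      rintro _ ⟨i, rfl⟩
      fin_cases i
      · exact h1inv
      · exact hQinv
    have h23 := Submodule.finrank_mono h22
    rw [h21] at h23
    simpa using h23
  set d := Module.finrank ℂ (Representation.linHom r r).invariants
  have h3 : ((∑ g : G, ‖(ρ g).trace‖ ^ 2 : ℝ) : ℂ) = (((Nat.card G : ℝ) * (d : ℝ) : ℝ) : ℂ) := by
    rw [inv_mul_eq_iff_eq_mul₀ hcard0] at key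
    rw [key]
    push_cast
    rfl
  have h4 := Complex.ofReal_injective h3
  rw [h4, Nat.card_eq_fintype_card] at h
  have h5 : (0 : ℝ) < (Fintype.card G : ℝ) := Nat.cast_pos.2 Fintype.card_pos
  have h6 : (2 : ℝ) ≤ (d : ℝ) := by exact_mod_cast h2
  nlinarith

end Pool.Agent.GalSide
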