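import Pool.Agent.W_7742e_h15.Defs

/-!
# Large values are rare

Let `Y` be the set of all `x ∈ 𝓞 K` with `|σ x| ≤ T` for all embeddings `σ` of `K`; it is finite
(`NumberField.Embeddings.finite_of_norm_le`).  If `b p ∉ Y` then `1 ≤ T⁻² ∑ σ, |σ (b p)| ^ 2`, so
`primeSum {p | b p ∉ Y} s ≤ T⁻² ∑ σ, ∑ p, |σ (b p)| ^ 2 p ^ (-s) ≤ T⁻² (∑ σ, C σ) log (1 / (s-1))`
for `s > 1` close to `1`; take `T` large.
-/

set_option autoImplicit false

noncomputable section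

open Filter Topology NumberField

namespace Pool.Agent.GalSide

theorem exists_finite_values {K : Type*} [Field K] [NumberField K] (b : Nat.Primes → 𝓞 K)
    (hRS : ∀ σ : K →+* ℂ, ∃ C : ℝ, LogBound C (fun p => ‖σ (b p : K)‖ ^ 2)) (η : ℝ) (hη : 0 < η) :
    ∃ Y : Finset (𝓞 K), ∀ᶠ s : ℝ in 𝓝[>] 1,
      primeSum {p | b p ∉ Y} s ≤ η * Real.log (1 / (s - 1)) := by
  classical
  choose C hC using hRS
  set C0 : ℝ := ∑ σ : K →+* ℂ, |C σ| with hC0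
  have hC0n : 0 ≤ C0 := Finset.sum_nonneg fun σ _ => abs_nonneg _
  set T : ℝ := √((C0 + 1) / η) with hT
  have hq : 0 < (C0 + 1) / η := by positivity
  have hTp : 0 < T := Real.sqrt_pos.2 hq
  have hT2 : T ^ 2 = (C0 + 1) / η := Real.sq_sqrt hq.le
  have hfin : ({x : 𝓞 K | ∀ σ : K →+* ℂ, ‖σ (x : K)‖ ≤ T}).Finite := by
    have h1 := (NumberField.Embeddings.finite_of_norm_le K ℂ T).preimage
      (f := fun x : 𝓞 K => (x : K)) (fun x _ y _ h => RingOfIntegers.ext h)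
    refine h1.subset fun x hx => ?_
    exact ⟨RingOfIntegers.isIntegral_coe x, hx⟩
  refine ⟨hfin.toFinset, ?_⟩
  have hall : ∀ᶠ s : ℝ in 𝓝[>] 1, ∀ σ : K →+* ℂ,
      Summable (fun p : Nat.Primes => ‖σ (b p : K)‖ ^ 2 * ((p : ℕ) : ℝ) ^ (-s)) ∧
        ∑' p : Nat.Primes, ‖σ (b p : K)‖ ^ 2 * ((p : ℕ) : ℝ) ^ (-s) ≤
          C σ * Real.log (1 / (s - 1)) := eventually_all.2 hC
  have hgt : ∀ᶠ s : ℝ in 𝓝[>] 1, 1 < s := eventually_mem_nhdsWithin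
  have hlt : ∀ᶠ s : ℝ in 𝓝[>] 1, s < 2 :=
    (eventually_lt_nhds (by norm_num : (1 : ℝ) < 2)).filter_mono nhdsWithin_le_nhds
  filter_upwards [hall, hgt, hlt] with s hs h1 h2
  have hlog : 0 ≤ Real.log (1 / (s - 1)) := by
    refine Real.log_nonneg ?_
    rw [le_div_iff₀ (by linarith)]
    linarith
  have hpow : ∀ p : Nat.Primes, 0 ≤ ((p : ℕ) : ℝ) ^ (-s) := fun p =>
    Real.rpow_nonneg (Nat.cast_nonneg _) _
  have hsumm : Summable (fun p : Nat.Primes => ∑ σ : K →+* ℂ,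
      ‖σ (b p : K)‖ ^ 2 * ((p : ℕ) : ℝ) ^ (-s)) := summable_sum fun σ _ => (hs σ).1
  have hterm : ∀ p : Nat.Primes, ({p | b p ∉ hfin.toFinset} : Set Nat.Primes).indicator
      (fun q : Nat.Primes => ((q : ℕ) : ℝ) ^ (-s)) p ≤
        (T ^ 2)⁻¹ * ∑ σ : K →+* ℂ, ‖σ (b p : K)‖ ^ 2 * ((p : ℕ) : ℝ) ^ (-s) := by
    intro p
    have hnn : ∀ σ : K →+* ℂ, 0 ≤ ‖σ (b p : K)‖ ^ 2 * ((p : ℕ) : ℝ) ^ (-s) := fun σ =>
      mul_nonneg (sq_nonneg _) (hpow p)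
    by_cases hp : p ∈ ({p | b p ∉ hfin.toFinset} : Set Nat.Primes)
    · rw [Set.indicator_of_mem hp]
      have h3 : b p ∉ hfin.toFinset := hp
      rw [Set.Finite.mem_toFinset] at h3
      have h4 : ∃ σ : K →+* ℂ, T < ‖σ (b p : K)‖ := by
        by_contra hcon
        push Not at hcon
        exact h3 hcon
      obtain ⟨σ, hσ⟩ := h4
      have h5 : T ^ 2 * ((p : ℕ) : ℝ) ^ (-s) ≤
          ∑ σ : K →+* ℂ, ‖σ (b p : K)‖ ^ 2 * ((p : ℕ) : ℝ) ^ (-s) := by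
        refine le_trans ?_ (Finset.single_le_sum (fun σ _ => hnn σ) (Finset.mem_univ σ))
        exact mul_le_mul_of_nonneg_right (pow_le_pow_left₀ hTp.le hσ.le 2) (hpow p)
      rw [inv_mul_eq_div, le_div_iff₀ (by positivity)]
      linarith
    · rw [Set.indicator_of_notMem hp]
      exact mul_nonneg (by positivity) (Finset.sum_nonneg fun σ _ => hnn σ)
  have hterm0 : ∀ p : Nat.Primes, 0 ≤ ({p | b p ∉ hfin.toFinset} : Set Nat.Primes).indicator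
      (fun q : Nat.Primes => ((q : ℕ) : ℝ) ^ (-s)) p := fun p =>
    Set.indicator_nonneg (fun q _ => hpow q) p
  have hsumm' := hsumm.mul_left (T ^ 2)⁻¹
  have h6 : primeSum {p | b p ∉ hfin.toFinset} s ≤
      ∑' p : Nat.Primes, (T ^ 2)⁻¹ * ∑ σ : K →+* ℂ, ‖σ (b p : K)‖ ^ 2 * ((p : ℕ) : ℝ) ^ (-s) :=
    (Summable.of_nonneg_of_le hterm0 hterm hsumm').tsum_le_tsum hterm hsumm'
  refine h6.trans ?_
  rw [tsum_mul_left, Summable.tsum_finsetSum fun σ _ => (hs σ).1]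
  have h7 : ∑ σ : K →+* ℂ, ∑' p : Nat.Primes, ‖σ (b p : K)‖ ^ 2 * ((p : ℕ) : ℝ) ^ (-s) ≤
      C0 * Real.log (1 / (s - 1)) := by
    rw [hC0, Finset.sum_mul]
    refine Finset.sum_le_sum fun σ _ => (hs σ).2.trans ?_
    exact mul_le_mul_of_nonneg_right (le_abs_self _) hlog
  calc (T ^ 2)⁻¹ * ∑ σ : K →+* ℂ, ∑' p : Nat.Primes, ‖σ (b p : K)‖ ^ 2 * ((p : ℕ) : ℝ) ^ (-s) ≤
        (T ^ 2)⁻¹ * (C0 * Real.log (1 / (s - 1))) :=
        mul_le_mul_of_nonneg_left h7 (by positivity)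
    _ = ((T ^ 2)⁻¹ * C0) * Real.log (1 / (s - 1)) := by ring
    _ ≤ η * Real.log (1 / (s - 1)) := by
        refine mul_le_mul_of_nonneg_right ?_ hlog
        rw [hT2, inv_div, div_mul_eq_mul_div, div_le_iff₀ (by linarith)]
        nlinarith

end Pool.Agent.GalSide
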