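import Pool.Agent.W_7742e_h15.Defs

/-!
# The limit field

`J` = the ideal of the sequences in `∀ i, A i` with almost all entries zero.  It is disjoint from
the multiplicative set of the `(ι i x)_i`, `x ≠ 0`; so it is contained in a prime ideal disjoint
from it (`Ideal.exists_le_prime_disjoint`), and `F` is the field of fractions of the quotient.
-/

set_option autoImplicit false

noncomputable section

open Filter Topology NumberField

namespace Pool.Agent.GalSide

theorem exists_field {O : Type} [CommRing O] [IsDomain O] (A : ℕ → Type) [∀ i, CommRing (A i)]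
    (ι : ∀ i, O →+* A i) (h : ∀ x : O, x ≠ 0 → {i | ι i x = 0}.Finite) :
    ∃ (F : Type) (_ : Field F) (π : (∀ i, A i) →+* F),
      (∀ x : ∀ i, A i, {i | x i ≠ 0}.Finite → π x = 0) ∧
      Function.Injective fun x : O => π fun i => ι i x := by
  classical
  -- the ideal of the almost zero sequences
  let J : Ideal (∀ i, A i) :=
    { carrier := {x | {i | x i ≠ 0}.Finite}
      add_mem' := by
        intro x y hx hy
        refine (hx.union hy).subset fun i hi => ?_
        by_contra hc
        have h1 : x i = 0 := by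
          by_contra h2
          exact hc (Or.inl h2)
        have h2 : y i = 0 := by
          by_contra h2
          exact hc (Or.inr h2)
        exact hi (by rw [Pi.add_apply, h1, h2, add_zero])
      zero_mem' := by
        have : {i | (0 : ∀ i, A i) i ≠ 0} = ∅ := by
          ext i
          simp
        change {i | (0 : ∀ i, A i) i ≠ 0}.Finite
        rw [this]
        exact Set.finite_empty
      smul_mem' := by
        intro c x hx
        refine hx.subset fun i hi => ?_
        intro h1
        exact hi (by rw [smul_eq_mul, Pi.mul_apply, h1, mul_zero]) }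
  have hJ : ∀ x : ∀ i, A i, x ∈ J ↔ {i | x i ≠ 0}.Finite := fun x => Iff.rfl
  let j : O →+* ∀ i, A i := RingHom.pi ι
  let M : Submonoid (∀ i, A i) := (nonZeroDivisors O).map j
  have hdis : Disjoint (J : Set (∀ i, A i)) (M : Set (∀ i, A i)) := by
    rw [Set.disjoint_left]
    rintro _ hx ⟨x, hx0, rfl⟩
    have hx1 : x ≠ 0 := nonZeroDivisors.ne_zero hx0
    have h1 : {i | ι i x ≠ 0}.Finite := (hJ _).1 hx
    have h2 := h x hx1
    have h3 : ({i | ι i x ≠ 0} ∪ {i | ι i x = 0}) = Set.univ := by
      ext i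
      simp only [Set.mem_union, Set.mem_ofPred_eq, Set.mem_univ, iff_true]
      tauto
    have h4 := h1.union h2
    rw [h3] at h4
    exact Set.infinite_univ h4
  obtain ⟨P, hP, hJP, hPM⟩ := Ideal.exists_le_prime_disjoint J M hdis
  have := hP
  refine ⟨FractionRing ((∀ i, A i) ⧸ P), inferInstance,
    (algebraMap ((∀ i, A i) ⧸ P) (FractionRing ((∀ i, A i) ⧸ P))).comp (Ideal.Quotient.mk P),
    ?_, ?_⟩
  · intro x hx
    have h1 : (Ideal.Quotient.mk P) x = 0 := Ideal.Quotient.eq_zero_iff_mem.2 (hJP hx)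
    rw [RingHom.comp_apply, h1, map_zero]
  · intro x y hxy
    by_contra hne
    have h1 : x - y ≠ 0 := sub_ne_zero.2 hne
    have h2 : (Ideal.Quotient.mk P) (j x) = (Ideal.Quotient.mk P) (j y) := by
      apply IsFractionRing.injective ((∀ i, A i) ⧸ P) (FractionRing ((∀ i, A i) ⧸ P))
      exact hxy
    have h3 : j (x - y) ∈ P := by
      rw [map_sub]
      exact Ideal.Quotient.eq.1 h2
    exact Set.disjoint_left.1 hPM h3 ⟨x - y, mem_nonZeroDivisors_of_ne_zero h1, rfl⟩

/-- Polynomial trick: `∏ y ∈ Y, (z - ι y) = 0` componentwise. -/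
theorem mem_image_of_forall {O F : Type} [CommRing O] [Field F] (A : ℕ → Type)
    [∀ i, CommRing (A i)] (ι : ∀ i, O →+* A i) (π : (∀ i, A i) →+* F) (Y : Finset O)
    (z : ∀ i, A i) (hz : ∀ i, ∃ y ∈ Y, z i = ι i y) : ∃ y ∈ Y, π z = π fun i => ι i y := by
  have h1 : ∏ y ∈ Y, (z - fun i => ι i y) = 0 := by
    funext i
    obtain ⟨y, hy, h⟩ := hz i
    rw [Finset.prod_apply]
    refine Finset.prod_eq_zero hy ?_
    rw [Pi.sub_apply, h, sub_self]
  have h2 := congrArg π h1
  rw [map_prod, map_zero, Finset.prod_eq_zero_iff] at h2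
  obtain ⟨y, hy, h⟩ := h2
  refine ⟨y, hy, ?_⟩
  rw [map_sub] at h
  exact sub_eq_zero.1 h

/-- A nonzero algebraic integer lies in finitely many ideals only. -/
theorem finite_mem_ideal {K : Type*} [Field K] [NumberField K] (𝔞 : ℕ → Ideal (𝓞 K))
    (h𝔞 : Function.Injective 𝔞) (x : 𝓞 K) (hx : x ≠ 0) : {i | x ∈ 𝔞 i}.Finite := by
  have h1 : Ideal.span {x} ≠ ⊥ := by
    rw [Ne, Ideal.span_singleton_eq_bot]
    exact hx
  have h2 : {I : Ideal (𝓞 K) | I ∣ Ideal.span {x}}.Finite := by
    have h3 : Fintype {I : Ideal (𝓞 K) // I ∣ Ideal.span {x}} :=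
      UniqueFactorizationMonoid.fintypeSubtypeDvd _ h1
    exact Set.finite_coe_iff.1 (Finite.of_fintype {I : Ideal (𝓞 K) // I ∣ Ideal.span {x}})
  refine (h2.preimage h𝔞.injOn).subset fun i hi => ?_
  exact Ideal.dvd_span_singleton.2 hi

end Pool.Agent.GalSide
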