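import Pool.Agent.W_7742e_h15.Defs

/-!
# Semisimplification

By strong induction on `N` there is a representation with the same trace for which the space is a
sum of simple stable subspaces (if `W` is a proper nonzero stable subspace take the direct sum of
the representations found for `W` and for `V ⧸ W`; the trace is additive).  Let `ρ'` be such a
representation and `tr ρ' (g h) = tr ρ' h` for all `h`.  Put `x = ρ' g - 1`; then
`tr (x y) = 0` for all `y` in the span `A` of the `ρ' h`, which is an algebra.  If `x v ≠ 0` for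
some `v` in a simple stable subspace `S`, then there is `y ∈ A` with `y x v = v` (`A x v = S`),
but `tr ((x y) ^ k) = 0` for all `k ≥ 1`, so `x y` is nilpotent (characteristic zero) and so is
`y x`, a contradiction.

(The Lean proof uses a variant: the radical of the trace form on the span of the `ρ h` is an ideal
`J` of nilpotent elements, it maps the space into every maximal stable subspace `W`, and we take
the direct sum of the representation found for `W` and of `V ⧸ W`.)
-/

set_option autoImplicit false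

noncomputable section

namespace Pool.Agent.GalSide

/-- In characteristic zero a matrix all of whose powers have trace zero is nilpotent. -/
theorem isNilpotent_of_trace_pow {F : Type*} [Field F] [CharZero F] {N : ℕ}
    (x : Matrix (Fin N) (Fin N) F) (h : ∀ k : ℕ, 1 ≤ k → (x ^ k).trace = 0) : IsNilpotent x := by
  classical
  have htr : ∀ p : Polynomial F, p.coeff 0 = 0 → Matrix.trace (Polynomial.aeval x p) = 0 := by
    intro p hp
    rw [Polynomial.aeval_eq_sum_range, Matrix.trace_sum]
    refine Finset.sum_eq_zero fun k _ => ?_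
    rw [Matrix.trace_smul]
    rcases Nat.eq_zero_or_pos k with hk | hk
    · rw [hk, hp, zero_smul]
    · rw [h k hk, smul_zero]
  have hne : minpoly F x ≠ 0 := minpoly.ne_zero (Algebra.IsIntegral.isIntegral x)
  obtain ⟨q, hq1, hq2⟩ :=
    Polynomial.exists_eq_pow_rootMultiplicity_mul_and_not_dvd (minpoly F x) hne 0
  rw [Polynomial.C_0, sub_zero] at hq1 hq2
  set j := (minpoly F x).rootMultiplicity 0
  have hcop : IsCoprime (Polynomial.X ^ (j + 1)) q :=
    ((Polynomial.irreducible_X.coprime_iff_not_dvd).2 hq2).pow_left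
  obtain ⟨u, v, huv⟩ := hcop
  have h0 : Polynomial.aeval x (Polynomial.X ^ j * q) = 0 := by
    rw [← hq1, minpoly.aeval]
  set e : Matrix (Fin N) (Fin N) F := Polynomial.aeval x (u * Polynomial.X ^ (j + 1)) with he
  have h1e : e + Polynomial.aeval x (v * q) = 1 := by
    rw [he, ← map_add, huv, map_one]
  have hemul : e * Polynomial.aeval x (v * q) = 0 := by
    have h2 : u * Polynomial.X ^ (j + 1) * (v * q) =
        (u * v * Polynomial.X) * (Polynomial.X ^ j * q) := by ring
    rw [he, ← map_mul, h2, map_mul, h0, mul_zero]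
  have hidem : e * e = e := by
    have h3 : e * (e + Polynomial.aeval x (v * q)) = e := by rw [h1e, mul_one]
    rwa [mul_add, hemul, add_zero] at h3
  have htre : Matrix.trace e = 0 := by
    rw [he]
    apply htr
    rw [pow_succ, ← mul_assoc, Polynomial.mul_coeff_zero, Polynomial.coeff_X_zero, mul_zero]
  have he0 : e = 0 := by
    have h4 : IsIdempotentElem (Matrix.toLin' e) := by
      unfold IsIdempotentElem
      rw [Module.End.mul_eq_comp, ← Matrix.toLin'_mul, hidem]
    have h5 := (LinearMap.IsIdempotentElem.trace_eq_zero_iff h4).1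
      (by rw [Matrix.trace_toLin'_eq, htre])
    exact (LinearEquiv.map_eq_zero_iff _).1 h5
  rw [he0, zero_add] at h1e
  refine ⟨j, ?_⟩
  have h6 : x ^ j = Polynomial.aeval x ((Polynomial.X : Polynomial F) ^ j) := by
    rw [map_pow, Polynomial.aeval_X]
  have h7 : x ^ j * Polynomial.aeval x (v * q) = 0 := by
    rw [h6, ← map_mul]
    have h8 : (Polynomial.X : Polynomial F) ^ j * (v * q) = v * (Polynomial.X ^ j * q) := by ring
    rw [h8, map_mul, h0, mul_zero]
  rwa [h1e, mul_one] at h7

universe u v

theorem trace_fromBlocks' {F : Type u} {m n : Type*} [Field F] [Fintype m] [Fintype n]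
    (A : Matrix m m F) (B : Matrix m n F) (C : Matrix n m F) (D : Matrix n n F) :
    (Matrix.fromBlocks A B C D).trace = A.trace + D.trace := by
  simp [Matrix.trace, Fintype.sum_sum_type]

open Module.Basis in
theorem trace_restrict_add_mapQ {F V : Type u} [Field F] [AddCommGroup V] [Module F V]
    [Module.Finite F V] (W : Submodule F V) (e : V →ₗ[F] V) (he : W ≤ W.comap e) :
    LinearMap.trace F V e = LinearMap.trace F W (e.restrict he) +
      LinearMap.trace F (V ⧸ W) (W.mapQ W e he) := by
  classical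
  let m := Module.Free.ChooseBasisIndex F W
  let bW : Module.Basis m F W := Module.Free.chooseBasis F W
  let n := Module.Free.ChooseBasisIndex F (V ⧸ W)
  let bQ : Module.Basis n F (V ⧸ W) := Module.Free.chooseBasis F (V ⧸ W)
  let b := sumQuot bW bQ
  let A : Matrix m m F := LinearMap.toMatrix bW bW (e.restrict he)
  let B : Matrix m n F := Matrix.of fun i l ↦
    ((sumQuot bW bQ).repr (e ((sumQuot bW bQ) (Sum.inr l)))) (Sum.inl i)
  let D : Matrix n n F := LinearMap.toMatrix bQ bQ (W.mapQ W e he)
  suffices LinearMap.toMatrix b b e = Matrix.fromBlocks A B 0 D by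
    rw [LinearMap.trace_eq_matrix_trace F b, this, LinearMap.trace_eq_matrix_trace F bW,
      LinearMap.trace_eq_matrix_trace F bQ, trace_fromBlocks']
  ext u v
  cases u with
  | inl i =>
    cases v with
    | inl k =>
      simp only [b, sumQuot_inl, Matrix.fromBlocks_apply₁₁, A, LinearMap.toMatrix_apply]
      apply sumQuot_repr_inl_of_mem
    | inr l => simp [b, LinearMap.toMatrix_apply, Matrix.fromBlocks_apply₁₂, B]
  | inr j =>
    cases v with
    | inl k =>
      suffices W.mkQ (e (bW k)) = 0 by simp [LinearMap.toMatrix_apply, b, this]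
      rw [← LinearMap.mem_ker, Submodule.ker_mkQ]
      exact he (Submodule.coe_mem (bW k))
    | inr l =>
      simp only [LinearMap.toMatrix_apply, sumQuot_repr_inr,
        Matrix.fromBlocks_apply₂₂, b, D]
      rw [← sumQuot_inr bW bQ l, W.mapQ_apply]
      simp

/-- A direct sum of two representations on matrices. -/
theorem exists_sum {Γ : Type v} {F : Type u} [Group Γ] [Field F] {k m n : ℕ} (hn : k + m = n)
    (r : Γ →* Matrix (Fin k) (Fin k) F) (s : Γ →* Matrix (Fin m) (Fin m) F) :
    ∃ t : Γ →* Matrix (Fin n) (Fin n) F, (∀ g, (t g).trace = (r g).trace + (s g).trace) ∧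
      ∀ g, r g = 1 → s g = 1 → t g = 1 := by
  subst hn
  let t0 : Γ →* Matrix (Fin k ⊕ Fin m) (Fin k ⊕ Fin m) F :=
    { toFun := fun g => Matrix.fromBlocks (r g) 0 0 (s g)
      map_one' := by rw [map_one, map_one, Matrix.fromBlocks_one]
      map_mul' := fun g h => by
        rw [map_mul, map_mul, Matrix.fromBlocks_multiply]
        simp }
  refine ⟨(Matrix.reindexAlgEquiv F F finSumFinEquiv).toMonoidHom.comp t0, ?_, ?_⟩
  · intro g
    show ((Matrix.reindexAlgEquiv F F finSumFinEquiv) (t0 g)).trace = _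
    rw [← trace_fromBlocks' (r g) 0 0 (s g)]
    rw [Matrix.coe_reindexAlgEquiv, Matrix.trace, Matrix.trace]
    refine Fintype.sum_equiv finSumFinEquiv.symm _ _ fun i => ?_
    simp [t0]
  · intro g h1 h2
    show (Matrix.reindexAlgEquiv F F finSumFinEquiv) (t0 g) = 1
    have : t0 g = 1 := by
      show Matrix.fromBlocks (r g) 0 0 (s g) = 1
      rw [h1, h2, Matrix.fromBlocks_one]
    rw [this, map_one]

theorem mul_mem_span {Γ : Type v} {F V : Type u} [Group Γ] [Field F] [AddCommGroup V]
    [Module F V] (ρ : Γ →* Module.End F V) {x y : Module.End F V}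
    (hx : x ∈ Submodule.span F (Set.range ρ)) (hy : y ∈ Submodule.span F (Set.range ρ)) :
    x * y ∈ Submodule.span F (Set.range ρ) := by
  have h := Submodule.mul_mem_mul hx hy
  rw [Submodule.span_mul_span] at h
  refine Submodule.span_mono ?_ h
  rintro _ ⟨_, ⟨g, rfl⟩, _, ⟨h, rfl⟩, rfl⟩
  exact ⟨g * h, map_mul ρ g h⟩

theorem exists_aux {Γ : Type v} {F : Type u} [Group Γ] [Field F] (n : ℕ) :
    ∀ (V : Type u) [AddCommGroup V] [Module F V] [Module.Finite F V], Module.finrank F V = n →
    ∀ (ρ : Γ →* Module.End F V) (J : Submodule F (Module.End F V)),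
    (∀ j ∈ J, IsNilpotent j) → (∀ g, ∀ j ∈ J, ρ g * j ∈ J) →
    (∀ j ∈ J, j ∈ Submodule.span F (Set.range ρ)) →
    ∃ ρ' : Γ →* Matrix (Fin n) (Fin n) F, (∀ g, (ρ' g).trace = LinearMap.trace F V (ρ g)) ∧
      ∀ g, ρ g - 1 ∈ J → ρ' g = 1 := by
  induction n using Nat.strong_induction_on with
  | _ n ih =>
  intro V _ _ _ hV ρ J hJn hJm hJs
  rcases Nat.eq_zero_or_pos n with hn | hn
  · subst hn
    refine ⟨1, fun g => ?_, fun g _ => Subsingleton.elim _ _⟩
    have : Subsingleton V := Module.finrank_zero_iff.1 hV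
    have h0 : ρ g = 0 := Subsingleton.elim _ _
    rw [h0, map_zero]
    simp [Matrix.trace]
  -- a maximal proper stable subspace
  have hnt : Nontrivial V := Module.nontrivial_of_finrank_pos (R := F) (by omega)
  obtain ⟨W, ⟨hWt, hWs⟩, hWm⟩ := (wellFounded_gt (α := Submodule F V)).has_min
    {W | W ≠ ⊤ ∧ ∀ g, ∀ w ∈ W, ρ g w ∈ W} ⟨⊥, bot_ne_top, fun g w hw => by
      rw [Submodule.mem_bot] at hw ⊢
      rw [hw, map_zero]⟩
  have hspan : ∀ x ∈ Submodule.span F (Set.range ρ), ∀ w ∈ W, x w ∈ W := by
    intro x hx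
    refine Submodule.span_induction (p := fun x _ => ∀ w ∈ W, x w ∈ W) ?_ ?_ ?_ ?_ hx
    · rintro _ ⟨g, rfl⟩ w hw
      exact hWs g w hw
    · intro w _
      exact W.zero_mem
    · intro a b _ _ ha hb w hw
      exact W.add_mem (ha w hw) (hb w hw)
    · intro c a _ ha w hw
      exact W.smul_mem c (ha w hw)
  have hJW : ∀ j ∈ J, ∀ v, j v ∈ W := by
    intro j hj v
    let X : Submodule F V := W ⊔ J.map (LinearMap.applyₗ v)
    have hXs : ∀ g, ∀ x ∈ X, ρ g x ∈ X := by
      intro g x hx
      obtain ⟨w, hw, y, hy, rfl⟩ := Submodule.mem_sup.1 hx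
      obtain ⟨i, hi, rfl⟩ := Submodule.mem_map.1 hy
      rw [map_add]
      refine X.add_mem (Submodule.mem_sup_left (hWs g w hw)) (Submodule.mem_sup_right ?_)
      exact Submodule.mem_map.2 ⟨ρ g * i, hJm g i hi, rfl⟩
    have hjX : j v ∈ X := Submodule.mem_sup_right (Submodule.mem_map.2 ⟨j, hj, rfl⟩)
    have hWX : W ≤ X := le_sup_left
    by_cases hXt : X = ⊤
    · -- `v = w + i v`
      have hv : v ∈ X := by rw [hXt]; trivial
      obtain ⟨w, hw, y, hy, hwy⟩ := Submodule.mem_sup.1 hv
      obtain ⟨i, hi, rfl⟩ := Submodule.mem_map.1 hy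
      have hwy' : w + i v = v := hwy
      obtain ⟨m, hm⟩ := hJn i hi
      -- by induction `v - i ^ k v ∈ W`
      have hk : ∀ k : ℕ, v - (i ^ k) v ∈ W := by
        intro k
        induction k with
        | zero => simp
        | succ k ihk =>
          have h1 : v - (i ^ (k + 1)) v = w + i (v - (i ^ k) v) := by
            rw [pow_succ', Module.End.mul_apply, map_sub, add_sub_assoc', hwy']
          rw [h1]
          exact W.add_mem hw (hspan i (hJs i hi) _ ihk)
      have hvW : v ∈ W := by
        have := hk m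
        rwa [hm, LinearMap.zero_apply, sub_zero] at this
      exact hspan j (hJs j hj) v hvW
    · have h1 : ¬ X > W := hWm X ⟨hXt, hXs⟩
      have h2 : X = W := by
        by_contra h3
        exact h1 (lt_of_le_of_ne hWX (Ne.symm h3))
      rw [← h2]
      exact hjX
  -- the restriction to `W`
  have hWc : ∀ g, W ≤ W.comap (ρ g) := fun g w hw => hWs g w hw
  let ρW : Γ →* Module.End F W :=
    { toFun := fun g => (ρ g).restrict (hWc g)
      map_one' := by
        ext w
        simp
      map_mul' := fun g h => by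
        ext w
        simp }
  have hρW : ∀ g (w : W), ((ρW g w : W) : V) = ρ g w := fun g w => rfl
  let ρQ : Γ →* Module.End F (V ⧸ W) :=
    { toFun := fun g => W.mapQ W (ρ g) (hWc g)
      map_one' := by
        ext w
        simp
      map_mul' := fun g h => by
        ext w
        simp }
  let JW : Submodule F (Module.End F W) :=
    { carrier := {f | ∃ j ∈ J, ∀ w : W, ((f w : W) : V) = j w}
      add_mem' := by
        rintro a b ⟨j, hj, h1⟩ ⟨i, hi, h2⟩
        exact ⟨j + i, J.add_mem hj hi, fun w => by simp [h1, h2]⟩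
      zero_mem' := ⟨0, J.zero_mem, fun w => by simp⟩
      smul_mem' := by
        rintro c a ⟨j, hj, h1⟩
        exact ⟨c • j, J.smul_mem c hj, fun w => by simp [h1]⟩ }
  have hk : Module.finrank F W + Module.finrank F (V ⧸ W) = n := by
    rw [add_comm, Submodule.finrank_quotient_add_finrank, hV]
  have hlt : Module.finrank F W < n := by
    rw [← hV]
    exact Submodule.finrank_lt hWt
  obtain ⟨r, hr1, hr2⟩ := ih (Module.finrank F W) hlt W rfl ρW JW
    (by
      rintro f ⟨j, hj, h1⟩
      obtain ⟨m, hm⟩ := hJn j hj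
      refine ⟨m, ?_⟩
      have h2 : ∀ k : ℕ, ∀ w : W, (((f ^ k) w : W) : V) = (j ^ k) w := by
        intro k
        induction k with
        | zero => intro w; simp
        | succ k ihk =>
          intro w
          rw [pow_succ', pow_succ', Module.End.mul_apply, Module.End.mul_apply, h1, ihk]
      ext w
      rw [h2, hm]
      simp)
    (by
      rintro g f ⟨j, hj, h1⟩
      refine ⟨ρ g * j, hJm g j hj, fun w => ?_⟩
      rw [Module.End.mul_apply, Module.End.mul_apply, hρW, h1])
    (by
      rintro f ⟨j, hj, h1⟩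
      have h2 : ∀ x ∈ Submodule.span F (Set.range ρ),
          ∃ y ∈ Submodule.span F (Set.range ρW), ∀ w : W, ((y w : W) : V) = x w := by
        intro x hx
        refine Submodule.span_induction (p := fun x _ =>
          ∃ y ∈ Submodule.span F (Set.range ρW), ∀ w : W, ((y w : W) : V) = x w) ?_ ?_ ?_ ?_ hx
        · rintro _ ⟨g, rfl⟩
          exact ⟨ρW g, Submodule.subset_span ⟨g, rfl⟩, fun w => rfl⟩
        · exact ⟨0, Submodule.zero_mem _, fun w => by simp⟩
        · rintro a b _ _ ⟨a', ha, ha'⟩ ⟨b', hb, hb'⟩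
          exact ⟨a' + b', Submodule.add_mem _ ha hb, fun w => by simp [ha', hb']⟩
        · rintro c a _ ⟨a', ha, ha'⟩
          exact ⟨c • a', Submodule.smul_mem _ c ha, fun w => by simp [ha']⟩
      obtain ⟨y, hy, hy'⟩ := h2 j (hJs j hj)
      have : f = y := by
        ext w
        rw [h1, hy']
      rw [this]
      exact hy)
  let bQ := Module.finBasis F (V ⧸ W)
  let sQ : Γ →* Matrix (Fin (Module.finrank F (V ⧸ W))) (Fin (Module.finrank F (V ⧸ W))) F :=
    (LinearMap.toMatrixAlgEquiv bQ).toMonoidHom.comp ρQ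
  have hsQ : ∀ g, sQ g = LinearMap.toMatrixAlgEquiv bQ (ρQ g) := fun g => rfl
  obtain ⟨t, ht1, ht2⟩ := exists_sum hk r sQ
  refine ⟨t, fun g => ?_, fun g hg => ?_⟩
  · rw [ht1, hr1, trace_restrict_add_mapQ W (ρ g) (hWc g)]
    congr 1
    rw [hsQ]
    exact (LinearMap.trace_eq_matrix_trace F bQ (ρQ g)).symm
  · refine ht2 g (hr2 g ⟨ρ g - 1, hg, fun w => ?_⟩) ?_
    · simp [hρW]
    · rw [hsQ]
      have h1 : ρQ g = 1 := by
        ext v
        show W.mkQ (ρ g v) = W.mkQ v
        have h2 := hJW (ρ g - 1) hg v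
        rw [← sub_eq_zero, ← map_sub, ← LinearMap.mem_ker, Submodule.ker_mkQ]
        simpa using h2
      rw [h1, map_one]

theorem exists_semisimple {Γ F : Type*} [Group Γ] [Field F] [CharZero F] {N : ℕ}
    (ρ : Γ →* Matrix (Fin N) (Fin N) F) :
    ∃ ρ' : Γ →* Matrix (Fin N) (Fin N) F, (∀ g, (ρ' g).trace = (ρ g).trace) ∧
      ∀ g, (∀ h, (ρ (g * h)).trace = (ρ h).trace) → ρ' g = 1 := by
  classical
  let T : Matrix (Fin N) (Fin N) F ≃ₐ[F] Module.End F (Fin N → F) := Matrix.toLinAlgEquiv'
  have hT : ∀ x, LinearMap.trace F (Fin N → F) (T x) = x.trace := fun x =>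
    Matrix.trace_toLin'_eq x
  let ρV : Γ →* Module.End F (Fin N → F) := T.toMonoidHom.comp ρ
  have hρV : ∀ g, ρV g = T (ρ g) := fun g => rfl
  let J : Submodule F (Module.End F (Fin N → F)) :=
    { carrier := {x | x ∈ Submodule.span F (Set.range ρV) ∧
        ∀ h, LinearMap.trace F (Fin N → F) (x * ρV h) = 0}
      add_mem' := by
        rintro a b ⟨ha, ha'⟩ ⟨hb, hb'⟩
        exact ⟨Submodule.add_mem _ ha hb, fun h => by rw [add_mul, map_add, ha', hb', add_zero]⟩
      zero_mem' := ⟨Submodule.zero_mem _, fun h => by rw [zero_mul, map_zero]⟩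
      smul_mem' := by
        rintro c a ⟨ha, ha'⟩
        exact ⟨Submodule.smul_mem _ c ha, fun h => by
          rw [smul_mul_assoc, map_smul, ha', smul_zero]⟩ }
  have hJspan : ∀ x ∈ J, ∀ y ∈ Submodule.span F (Set.range ρV),
      LinearMap.trace F (Fin N → F) (x * y) = 0 := by
    rintro x ⟨_, hx⟩ y hy
    refine Submodule.span_induction
      (p := fun y _ => LinearMap.trace F (Fin N → F) (x * y) = 0) ?_ ?_ ?_ ?_ hy
    · rintro _ ⟨g, rfl⟩
      exact hx g
    · rw [mul_zero, map_zero]
    · intro a b _ _ ha hb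
      rw [mul_add, map_add, ha, hb, add_zero]
    · intro c a _ ha
      rw [mul_smul_comm, map_smul, ha, smul_zero]
  have h1span : (1 : Module.End F (Fin N → F)) ∈ Submodule.span F (Set.range ρV) :=
    Submodule.subset_span ⟨1, map_one ρV⟩
  obtain ⟨ρ', h1, h2⟩ := exists_aux N (Fin N → F) (by simp) ρV J
    (by
      intro j hj
      have hpow : ∀ k : ℕ, j ^ k ∈ Submodule.span F (Set.range ρV) := by
        intro k
        induction k with
        | zero => rw [pow_zero]; exact h1span
        | succ k ihk => rw [pow_succ]; exact mul_mem_span ρV ihk hj.1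
      have h3 : IsNilpotent (T.symm j) := by
        refine isNilpotent_of_trace_pow _ fun k hk => ?_
        rw [← hT, map_pow, AlgEquiv.apply_symm_apply]
        obtain ⟨l, rfl⟩ := Nat.exists_eq_add_of_le' hk
        rw [pow_succ']
        exact hJspan j hj _ (hpow l)
      obtain ⟨m, hm⟩ := h3
      refine ⟨m, ?_⟩
      have h4 : T.symm (j ^ m) = 0 := by rw [map_pow, hm]
      exact (EmbeddingLike.map_eq_zero_iff (f := T.symm)).1 h4)
    (by
      rintro g j ⟨hj, hj'⟩
      refine ⟨mul_mem_span ρV (Submodule.subset_span ⟨g, rfl⟩) hj, fun h => ?_⟩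
      rw [mul_assoc, LinearMap.trace_mul_comm, mul_assoc, ← map_mul]
      exact hj' _)
    (fun j hj => hj.1)
  refine ⟨ρ', fun g => ?_, fun g hg => h2 g ⟨?_, fun h => ?_⟩⟩
  · rw [h1, hρV, hT]
  · exact Submodule.sub_mem _ (Submodule.subset_span ⟨g, rfl⟩) h1span
  · rw [sub_mul, one_mul, map_sub, ← map_mul, hρV, hρV, hT, hT, hg, sub_self]

end Pool.Agent.GalSide
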