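import Pool.Agent.W_7742e_h15.Defs

/-!
# Test elements and finiteness of the traces

`exists_test`: choose `h 0, …, h (d-1)` such that the `ρ (h j)` are a basis of the span of the
`ρ x` (`exists_linearIndependent`).

`finite_trace`: if `g = s * t⁻¹` then `T g` depends only on the two vectors `(T (s * h j))_j`,
`(T (t * h j))_j ∈ W ^ d`.  Indeed let `(s, t)`, `(s', t')` have the same vectors.  Then
`T (s * x) = T (s' * x)` and `T (t * x) = T (t' * x)` for all `x`; by centrality
`T (x * t' * (t'⁻¹ * t)) = T (x * t) = T (t * x) = T (t' * x) = T (x * t')`, so `n = t'⁻¹ * t`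
satisfies `T (y * n) = T y` for all `y`, and `T (y * t⁻¹) = T (y * n⁻¹ * t'⁻¹)
= T (t'⁻¹ * y * n⁻¹) = T (t'⁻¹ * y) = T (y * t'⁻¹)`.
-/

set_option autoImplicit false

noncomputable section

namespace Pool.Agent.GalSide

theorem exists_test {M F : Type*} [Monoid M] [Field F] {N : ℕ}
    (ρ : M →* Matrix (Fin N) (Fin N) F) :
    ∃ (d : ℕ) (h : Fin d → M), d ≤ N ^ 2 ∧ ∀ g g' : M,
      (∀ j, (ρ (g * h j)).trace = (ρ (g' * h j)).trace) →
        ∀ x, (ρ (g * x)).trace = (ρ (g' * x)).trace := by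
  classical
  obtain ⟨b, hbs, hspan, hli⟩ := exists_linearIndependent F (Set.range ρ)
  have hfin : b.Finite := hli.setFinite
  have : Fintype b := hfin.fintype
  have hcard : Fintype.card b ≤ N ^ 2 := by
    have h1 := hli.fintype_card_le_finrank
    rw [Module.finrank_matrix, Module.finrank_self, Fintype.card_fin, mul_one] at h1
    rw [sq]
    exact h1
  have hch : ∀ j : Fin (Fintype.card b), ∃ x : M, ρ x = ((Fintype.equivFin b).symm j : b) :=
    fun j => hbs ((Fintype.equivFin b).symm j).2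
  choose h hh using hch
  refine ⟨Fintype.card b, h, hcard, fun g g' hgg x => ?_⟩
  let L : Matrix (Fin N) (Fin N) F →ₗ[F] F :=
    (Matrix.traceLinearMap (Fin N) F F).comp
      (LinearMap.mulLeft F (ρ g) - LinearMap.mulLeft F (ρ g'))
  have hL : ∀ A, L A = (ρ g * A).trace - (ρ g' * A).trace := by
    intro A
    simp [L]
  have h1 : b ⊆ (LinearMap.ker L : Set (Matrix (Fin N) (Fin N) F)) := by
    intro A hA
    have h2 := hgg (Fintype.equivFin b ⟨A, hA⟩)
    have h3 : ρ (h (Fintype.equivFin b ⟨A, hA⟩)) = A := by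
      rw [hh, Equiv.symm_apply_apply]
    rw [map_mul, map_mul, h3] at h2
    change L A = 0
    rw [hL, h2, sub_self]
  have h2 : ρ x ∈ Submodule.span F b := by
    rw [hspan]
    exact Submodule.subset_span ⟨x, rfl⟩
  have h3 : L (ρ x) = 0 := LinearMap.mem_ker.1 (Submodule.span_le.2 h1 h2)
  rw [hL, sub_eq_zero] at h3
  rw [map_mul, map_mul]
  exact h3

theorem finite_trace {M F : Type*} [Group M] (T : M → F) (hT : ∀ x y, T (x * y) = T (y * x))
    {d : ℕ} (h : Fin d → M)
    (hsep : ∀ g g', (∀ j, T (g * h j) = T (g' * h j)) → ∀ x, T (g * x) = T (g' * x))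
    (W : Set F) (hW : W.Finite)
    (hg : ∀ g : M, ∃ s t : M, g * t = s ∧ (∀ j, T (s * h j) ∈ W) ∧ ∀ j, T (t * h j) ∈ W) :
    (Set.range T).Finite := by
  classical
  choose s t hst hs ht using hg
  have key : ∀ g g', (∀ j, T (s g * h j) = T (s g' * h j)) →
      (∀ j, T (t g * h j) = T (t g' * h j)) → T g = T g' := by
    intro g g' h1 h2
    have h1' := hsep _ _ h1
    have h2' := hsep _ _ h2
    have e1 : g = s g * (t g)⁻¹ := by rw [← hst g, mul_inv_cancel_right]
    have e2 : g' = s g' * (t g')⁻¹ := by rw [← hst g', mul_inv_cancel_right]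
    have hn : ∀ y, T (y * ((t g')⁻¹ * t g)) = T y := by
      intro y
      calc T (y * ((t g')⁻¹ * t g)) = T (t g * (y * (t g')⁻¹)) := by
            rw [← mul_assoc, hT]
        _ = T (t g' * (y * (t g')⁻¹)) := h2' _
        _ = T ((y * (t g')⁻¹) * t g') := hT _ _
        _ = T y := by rw [inv_mul_cancel_right]
    calc T g = T (s g * (t g)⁻¹) := congrArg T e1
      _ = T (s g' * (t g)⁻¹) := h1' _
      _ = T ((t g)⁻¹ * s g') := hT _ _
      _ = T ((t g')⁻¹ * s g' ) := by
          have e3 := hn ((t g')⁻¹ * s g' * (((t g')⁻¹ * t g)⁻¹))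
          rw [inv_mul_cancel_right] at e3
          rw [e3, hT ((t g')⁻¹ * s g')]
          congr 1
          group
      _ = T (s g' * (t g')⁻¹) := hT _ _
      _ = T g' := (congrArg T e2).symm
  set Φ : M → (Fin d → F) × (Fin d → F) :=
    fun g => (fun j => T (s g * h j), fun j => T (t g * h j)) with hΦ
  have hfin : (Set.range Φ).Finite := by
    refine Set.Finite.subset ((Set.Finite.pi' fun _ : Fin d => hW).prod
      (Set.Finite.pi' fun _ : Fin d => hW)) ?_
    rintro _ ⟨g, rfl⟩
    exact ⟨hs g, ht g⟩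
  let f : (Fin d → F) × (Fin d → F) → F := fun v => if hv : ∃ g, Φ g = v then T hv.choose else T 1
  refine (hfin.image f).subset ?_
  rintro _ ⟨g, rfl⟩
  refine ⟨Φ g, ⟨g, rfl⟩, ?_⟩
  have hv : ∃ g', Φ g' = Φ g := ⟨g, rfl⟩
  have h1 : f (Φ g) = T hv.choose := dif_pos hv
  rw [h1]
  have h2 := hv.choose_spec
  exact key _ _ (fun j => congrFun (congrArg Prod.fst h2) j)
    (fun j => congrFun (congrArg Prod.snd h2) j)

end Pool.Agent.GalSide
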