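import Pool.Agent.W_7742e_h15.MainA
import Pool.Agent.W_7742e_h15.Lrg
import Pool.Agent.W_7742e_h15.Chb
import Pool.Agent.W_7742e_h15.Rng
import Pool.Agent.W_7742e_h15.Spn
import Pool.Agent.W_7742e_h15.SS
import Pool.Agent.W_7742e_h15.Dsc
import Pool.Agent.W_7742e_h15.Irr

/-!
# Main theorem
-/

set_option autoImplicit false

noncomputable section

open Filter Topology NumberField

namespace Pool.Agent.GalSide

section

variable {K : Type} [Field K] [NumberField K] {Γ : Type} [Group Γ] [TopologicalSpace Γ]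
  [IsTopologicalGroup Γ] [CompactSpace Γ]

/-- Step 2: sums of two good elements for every `i`. -/
theorem exists_pair (Φ : FrobeniusData Γ) (D : ℕ) (b : Nat.Primes → 𝓞 K) (N : ℕ)
    (Y : Finset (𝓞 K)) {η : ℝ} (hη : 0 ≤ η)
    (hY : ∀ᶠ s : ℝ in 𝓝[>] 1, primeSum {p | b p ∉ Y} s ≤ η * Real.log (1 / (s - 1)))
    {A : Type} [CommRing A] (ι : 𝓞 K →+* A) (r : Γ →* GL (Fin N) A)
    (hcont : IsOpen (r.ker : Set Γ)) (E : Set Nat.Primes) (hE : E.Finite)
    (htr : ∀ p ∉ E, (D : A) * (r (Φ.frob p)).val.trace = ι (b p))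
    {d : ℕ} (hd : 2 * (d : ℝ) * η < 1) (h : Fin d → Γ) (g : Γ) :
    ∃ s t : Γ, g * t = s ∧ (∀ j, ∃ y ∈ Y, (D : A) * (r (s * h j)).val.trace = ι y) ∧
      ∀ j, ∃ y ∈ Y, (D : A) * (r (t * h j)).val.trace = ι y := by
  refine exists_good Φ r.ker hcont {g | ∃ y ∈ Y, (D : A) * (r g).val.trace = ι y} ?_ ?_
    {p | b p ∉ Y} E hE η hη hY ?_ hd h g
  · rintro g ⟨y, hy, hg⟩ u hu
    refine ⟨y, hy, ?_⟩
    rw [map_mul, (MonoidHom.mem_ker.mp hu), mul_one, hg]
  · rintro g ⟨y, hy, hg⟩ h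
    refine ⟨y, hy, ?_⟩
    rw [← hg, map_mul, map_mul, map_inv]
    simp only [Units.val_mul]
    rw [Matrix.trace_mul_cycle, ← Units.val_mul (r h)⁻¹, inv_mul_cancel, Units.val_one, one_mul]
  · intro p hp hpZ hpY
    exact hpZ ⟨b p, hpY, htr p hp⟩

end

section

variable {K : Type} [Field K] [NumberField K] {Γ : Type} [Group Γ] [TopologicalSpace Γ]
  [IsTopologicalGroup Γ] [CompactSpace Γ]

/-- Steps 3 and 4: the values `b p`, `p ∉ S`, are finite in number. -/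
theorem finite_values (Φ : FrobeniusData Γ)
    (S : Set Nat.Primes) (D : ℕ) (hD : D ≠ 0) (b : Nat.Primes → 𝓞 K)
    (hRS : ∀ σ : K →+* ℂ, ∃ C : ℝ, LogBound C (fun p => ‖σ (b p : K)‖ ^ 2)) (N : ℕ)
    (Si : ℕ → Set Nat.Primes) (hSi : ∀ i, (Si i).Finite) (hfin : ∀ p ∉ S, {i | p ∈ Si i}.Finite)
    (A : ℕ → Type) [∀ i, CommRing (A i)] (ι : ∀ i, 𝓞 K →+* A i)
    (r : ∀ i, Γ →* GL (Fin N) (A i)) (hcont : ∀ i, IsOpen ((r i).ker : Set Γ))
    (htr : ∀ i, ∀ p ∉ Si i, (D : A i) * (r i (Φ.frob p)).val.trace = ι i (b p))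
    (F : Type) [Field F] (π : (∀ i, A i) →+* F)
    (hπ : ∀ x : ∀ i, A i, {i | x i ≠ 0}.Finite → π x = 0)
    (hinj : Function.Injective (π.comp (RingHom.pi ι))) :
    {x | ∃ p ∉ S, b p = x}.Finite := by
  have hch : CharZero F := charZero_of_injective_ringHom hinj
  have hDF : (D : F) ≠ 0 := by exact_mod_cast hD
  -- the exceptional values
  set η : ℝ := 1 / (2 * ((N : ℝ) ^ 2 + 1)) with hηdef
  have hN : (0 : ℝ) < (N : ℝ) ^ 2 + 1 := by positivity
  have hη : 0 < η := by positivity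
  obtain ⟨Y, hY⟩ := exists_finite_values b hRS η hη
  set ρ := limRep π r with hρ
  obtain ⟨d, h, hd, hsep⟩ := exists_test ρ
  have hd' : 2 * (d : ℝ) * η < 1 := by
    have : (d : ℝ) ≤ (N : ℝ) ^ 2 := by exact_mod_cast hd
    rw [hηdef, mul_one_div, div_lt_one (by positivity)]
    linarith
  have key : (Set.range fun g => (ρ g).trace).Finite := by
    refine finite_trace (fun g => (ρ g).trace) (fun x y => ?_) h hsep
      {w | ∃ y ∈ Y, (D : F) * w = π.comp (RingHom.pi ι) y} ?_ ?_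
    · simp only [map_mul]
      exact Matrix.trace_mul_comm _ _
    · refine (Y.finite_toSet.image fun y => (D : F)⁻¹ * π.comp (RingHom.pi ι) y).subset ?_
      rintro w ⟨y, hy, hw⟩
      refine ⟨y, hy, ?_⟩
      simp only
      rw [← hw, inv_mul_cancel_left₀ hDF]
    · intro g
      have h1 : ∀ i, ∃ s t : Γ, g i * t = s ∧
          (∀ j, ∃ y ∈ Y, (D : A i) * (r i (s * h j i)).val.trace = ι i y) ∧
          ∀ j, ∃ y ∈ Y, (D : A i) * (r i (t * h j i)).val.trace = ι i y := fun i =>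
        exists_pair Φ D b N Y hη.le hY (ι i) (r i) (hcont i) (Si i) (hSi i) (htr i) hd'
          (fun j => h j i) (g i)
      choose s t hst hs ht using h1
      have aux : ∀ u : ℕ → Γ, (∀ i j, ∃ y ∈ Y, (D : A i) * (r i (u i * h j i)).val.trace = ι i y) →
          ∀ j, (ρ (u * h j)).trace ∈ {w | ∃ y ∈ Y, (D : F) * w = π.comp (RingHom.pi ι) y} := by
        intro u hu j
        obtain ⟨y, hy, h2⟩ := mem_image_of_forall A ι π Y
          (fun i => (D : A i) * (r i (u i * h j i)).val.trace) (fun i => hu i j)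
        refine ⟨y, hy, ?_⟩
        rw [hρ, limRep_trace]
        have h3 : (D : F) = π (fun i => (D : A i)) := by
          have : (fun i => (D : A i)) = ((D : ℕ) : ∀ i, A i) := by
            ext i; simp
          rw [this, map_natCast]
        rw [h3, ← map_mul]
        exact h2
      refine ⟨s, t, ?_, aux s hs, aux t ht⟩
      ext i
      exact hst i
  -- conclusion
  have hfinY : ((fun x => π.comp (RingHom.pi ι) x) '' {x | ∃ p ∉ S, b p = x}).Finite := by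
    refine (key.image fun w => (D : F) * w).subset ?_
    rintro _ ⟨_, ⟨p, hp, rfl⟩, rfl⟩
    refine ⟨_, ⟨fun _ => Φ.frob p, rfl⟩, ?_⟩
    simp only
    rw [hρ, limRep_trace]
    have h3 : (D : F) = π (fun i => (D : A i)) := by
      have : (fun i => (D : A i)) = ((D : ℕ) : ∀ i, A i) := by
        ext i; simp
      rw [this, map_natCast]
    rw [h3, ← map_mul]
    refine pi_eq_of_finite π hπ _ _ ((hfin p hp).subset ?_)
    intro i hi
    by_contra hpi
    exact hi (htr i p hpi)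
  exact hfinY.of_finite_image hinj.injOn

/-- Steps 5 to 7: the trace function with values in `𝓞 K`. -/
theorem exists_tau (Φ : FrobeniusData Γ)
    (S : Set Nat.Primes) (hS : S.Finite) (D : ℕ) (b : Nat.Primes → 𝓞 K) (N : ℕ)
    (Si : ℕ → Set Nat.Primes) (hSi : ∀ i, (Si i).Finite) (hfin : ∀ p ∉ S, {i | p ∈ Si i}.Finite)
    (A : ℕ → Type) [∀ i, CommRing (A i)] (ι : ∀ i, 𝓞 K →+* A i)
    (hι : ∀ x : 𝓞 K, x ≠ 0 → {i | ι i x = 0}.Finite)
    (r : ∀ i, Γ →* GL (Fin N) (A i)) (hcont : ∀ i, IsOpen ((r i).ker : Set Γ))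
    (htr : ∀ i, ∀ p ∉ Si i, (D : A i) * (r i (Φ.frob p)).val.trace = ι i (b p))
    (hV : {x | ∃ p ∉ S, b p = x}.Finite) :
    ∃ (i₀ : ℕ) (τ : Γ → 𝓞 K), (∀ i ≥ i₀, ∀ g, (D : A i) * (r i g).val.trace = ι i (τ g)) ∧
      (∀ p ∉ S, τ (Φ.frob p) = b p) ∧
      ∀ i ≥ i₀, ∀ g g', ι i (τ g) = ι i (τ g') → τ g = τ g' := by
  set V : Set (𝓞 K) := {x | ∃ p ∉ S, b p = x} with hVdef
  -- step 5
  have h5 : ∀ i j g, ∃ v ∈ V, (D : A i) * (r i g).val.trace = ι i v ∧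
      (D : A j) * (r j g).val.trace = ι j v := by
    intro i j g
    have hopen : IsOpen (((r i).ker ⊓ (r j).ker : Subgroup Γ) : Set Γ) := by
      rw [Subgroup.coe_inf]
      exact (hcont i).inter (hcont j)
    obtain ⟨p, hp, hconj⟩ := exists_frob_conj Φ ((r i).ker ⊓ (r j).ker) hopen g (S ∪ Si i ∪ Si j)
      ((hS.union (hSi i)).union (hSi j))
    simp only [Set.mem_union, not_or] at hp
    refine ⟨b p, ⟨p, hp.1.1, rfl⟩, ?_, ?_⟩
    · rw [← htr i p hp.1.2, trace_eq_of_isConj (r i) _ inf_le_left _ _ hconj]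
    · rw [← htr j p hp.2, trace_eq_of_isConj (r j) _ inf_le_right _ _ hconj]
  -- step 6
  have h6 : ∃ i₀, ∀ i ≥ i₀, Set.InjOn (ι i) V := by
    have hbad : (⋃ x ∈ V, ⋃ y ∈ V, {i | x ≠ y ∧ ι i (x - y) = 0}).Finite := by
      refine hV.biUnion fun x _ => hV.biUnion fun y _ => ?_
      by_cases hxy : x = y
      · simp [hxy]
      · exact (hι (x - y) (sub_ne_zero.mpr hxy)).subset fun i hi => hi.2
    obtain ⟨M, hM⟩ := hbad.bddAbove
    refine ⟨M + 1, fun i hi x hx y hy hxy => ?_⟩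
    by_contra hne
    have : i ≤ M := hM (Set.mem_biUnion hx (Set.mem_biUnion hy ⟨hne, by rw [map_sub, hxy, sub_self]⟩))
    omega
  obtain ⟨i₀, hi₀⟩ := h6
  choose τ hτV hτ using fun g => (h5 i₀ i₀ g)
  have h7 : ∀ i ≥ i₀, ∀ g, (D : A i) * (r i g).val.trace = ι i (τ g) := by
    intro i hi g
    obtain ⟨v, hv, h1, h2⟩ := h5 i₀ i g
    have : τ g = v := hi₀ i₀ le_rfl (hτV g) hv (by rw [← (hτ g).1, h1])
    rw [this, h2]
  refine ⟨i₀, τ, h7, fun p hp => ?_, fun i hi g g' h => hi₀ i hi (hτV g) (hτV g') h⟩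
  obtain ⟨M, hM⟩ := (hfin p hp).bddAbove
  have hpi : p ∉ Si (max i₀ (M + 1)) := fun hmem => by
    have h1 : max i₀ (M + 1) ≤ M := hM hmem
    have h2 : M + 1 ≤ max i₀ (M + 1) := le_max_right _ _
    omega
  have hmax : max i₀ (M + 1) ≥ i₀ := le_max_left _ _
  refine hi₀ _ hmax (hτV _) ⟨p, hp, rfl⟩ ?_
  rw [← h7 _ hmax, htr _ p hpi]

end

theorem main {K : Type} [Field K] [NumberField K] {Γ : Type} [Group Γ] [TopologicalSpace Γ]
    [IsTopologicalGroup Γ] [CompactSpace Γ] (Φ : FrobeniusData Γ)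
    (S : Set Nat.Primes) (hS : S.Finite) (D : ℕ) (hD : D ≠ 0) (b : Nat.Primes → 𝓞 K)
    (hRS : ∀ σ : K →+* ℂ, ∃ C : ℝ, LogBound C (fun p => ‖σ (b p : K)‖ ^ 2)) (N : ℕ)
    (𝔞 : ℕ → Ideal (𝓞 K)) (h𝔞 : Function.Injective 𝔞)
    (Si : ℕ → Set Nat.Primes) (hSi : ∀ i, (Si i).Finite) (hfin : ∀ p ∉ S, {i | p ∈ Si i}.Finite)
    (A : ℕ → Type) [∀ i, CommRing (A i)] (ι : ∀ i, 𝓞 K →+* A i)
    (hker : ∀ i, RingHom.ker (ι i) = 𝔞 i)
    (r : ∀ i, Γ →* GL (Fin N) (A i)) (hcont : ∀ i, IsOpen ((r i).ker : Set Γ))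
    (hunr : ∀ i, ∀ p ∉ Si i, Φ.inertia p ≤ (r i).ker)
    (htr : ∀ i, ∀ p ∉ Si i, (D : A i) * (r i (Φ.frob p)).val.trace = ι i (b p)) :
    ∀ σ : K →+* ℂ, ∃ ρ : Γ →* GL (Fin N) ℂ, IsOpen (ρ.ker : Set Γ) ∧
      (∀ p ∉ S, Φ.inertia p ≤ ρ.ker) ∧
      (∀ p ∉ S, (D : ℂ) * (ρ (Φ.frob p)).val.trace = σ (b p)) ∧
      (∀ g : Γ, {i | r i g = 1}.Infinite → ρ g = 1) ∧
      (∀ (g : Γ) (β : 𝓞 K), {i | (D : A i) * (r i g).val.trace = ι i β}.Infinite →
        (D : ℂ) * (ρ g).val.trace = σ β) ∧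
      ((∀ ε : ℝ, 0 < ε → LogBound ((D : ℝ) ^ 2 + ε) (fun p => ‖σ (b p : K)‖ ^ 2)) →
        ∀ W : Submodule ℂ (Fin N → ℂ), (∀ g, ∀ w ∈ W, (ρ g).val.mulVec w ∈ W) →
          W = ⊥ ∨ W = ⊤) := by
  have hι : ∀ x : 𝓞 K, x ≠ 0 → {i | ι i x = 0}.Finite := by
    intro x hx
    refine (finite_mem_ideal 𝔞 h𝔞 x hx).subset fun i hi => ?_
    rw [Set.mem_ofPred_eq, ← hker i, RingHom.mem_ker]
    exact hi
  obtain ⟨F, _, π, hπ, hinj'⟩ := exists_field A ι hι
  have hinj : Function.Injective (π.comp (RingHom.pi ι)) := hinj'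
  have hch : CharZero F := charZero_of_injective_ringHom hinj
  have hDF : (D : F) ≠ 0 := by exact_mod_cast hD
  have hV := finite_values Φ S D hD b hRS N Si hSi hfin A ι r hcont htr F π hπ hinj
  obtain ⟨i₀, τ, hτ, hτb, hτinj⟩ := exists_tau Φ S hS D b N Si hSi hfin A ι hι r hcont htr hV
  -- the representation over `F`
  let δ : Γ →* (ℕ → Γ) := MonoidHom.pi fun _ => MonoidHom.id Γ
  let ρ₀ : Γ →* Matrix (Fin N) (Fin N) F := (limRep π r).comp δ
  have hnat : (D : F) = π (fun i => (D : A i)) := by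
    have : (fun i => (D : A i)) = ((D : ℕ) : ∀ i, A i) := by
      ext i; simp
    rw [this, map_natCast]
  have htr₀ : ∀ g, (D : F) * (ρ₀ g).trace = π.comp (RingHom.pi ι) (τ g) := by
    intro g
    change (D : F) * (limRep π r (δ g)).trace = _
    rw [limRep_trace, hnat, ← map_mul]
    refine pi_eq_of_finite π hπ _ _ ((Set.finite_Iio i₀).subset ?_)
    intro i hi
    by_contra hlt
    exact hi (hτ i (by simpa using hlt) g)
  obtain ⟨ρ₁, hρ₁, hρ₁'⟩ := exists_semisimple ρ₀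
  have hker₁ : ∀ g, (∀ h, τ (g * h) = τ h) → g ∈ ρ₁.ker := by
    intro g hg
    refine hρ₁' g fun h => ?_
    apply mul_left_cancel₀ hDF
    rw [htr₀, htr₀, hg]
  have hopen : IsOpen (ρ₁.ker : Set Γ) := by
    refine Subgroup.isOpen_mono (H₁ := (r i₀).ker) (fun g hg => hker₁ g fun h => ?_) (hcont i₀)
    refine hτinj i₀ le_rfl _ _ ?_
    rw [← hτ i₀ le_rfl, ← hτ i₀ le_rfl, map_mul, MonoidHom.mem_ker.mp hg, one_mul]
  have hin : ∀ p ∉ S, Φ.inertia p ≤ ρ₁.ker := by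
    intro p hp g hg
    obtain ⟨M, hM⟩ := (hfin p hp).bddAbove
    have hpi : p ∉ Si (max i₀ (M + 1)) := fun hmem => by
      have h1 : max i₀ (M + 1) ≤ M := hM hmem
      have h2 : M + 1 ≤ max i₀ (M + 1) := le_max_right _ _
      omega
    have hmax : max i₀ (M + 1) ≥ i₀ := le_max_left _ _
    refine hker₁ g fun h => hτinj _ hmax _ _ ?_
    rw [← hτ _ hmax, ← hτ _ hmax, map_mul, MonoidHom.mem_ker.mp (hunr _ p hpi hg), one_mul]
  have hone : ∀ g : Γ, {i | r i g = 1}.Infinite → g ∈ ρ₁.ker := by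
    intro g hg
    obtain ⟨i, hi, hii⟩ := hg.exists_gt i₀
    refine hker₁ g fun h => hτinj i hii.le _ _ ?_
    rw [← hτ i hii.le, ← hτ i hii.le, map_mul, show r i g = 1 from hi, one_mul]
  have htau : ∀ (g : Γ) (β : 𝓞 K), {i | (D : A i) * (r i g).val.trace = ι i β}.Infinite →
      τ g = β := by
    intro g β hg
    by_contra hne
    refine (hg.diff (Set.finite_Iio i₀)) ((hι (τ g - β) (sub_ne_zero.mpr hne)).subset ?_)
    rintro i ⟨hi, hii⟩
    have hi' : (D : A i) * (r i g).val.trace = ι i β := hi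
    rw [Set.mem_ofPred_eq, map_sub, ← hτ i (by simpa using hii) g, hi', sub_self]
  -- descent
  have hfinG : Finite (Γ ⧸ ρ₁.ker) := Subgroup.quotient_finite_of_isOpen _ hopen
  let φ : K →+* F := IsFractionRing.lift hinj
  have hφ : ∀ x : 𝓞 K, φ (x : K) = π.comp (RingHom.pi ι) x := fun x =>
    IsFractionRing.lift_algebraMap hinj x
  let ρG : Γ ⧸ ρ₁.ker →* Matrix (Fin N) (Fin N) F := QuotientGroup.lift ρ₁.ker ρ₁ le_rfl
  have hρG : ∀ g : Γ, (ρG (QuotientGroup.mk g)).trace = φ ((τ g : K) / D) := by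
    intro g
    change (ρ₁ g).trace = _
    rw [hρ₁, map_div₀, map_natCast, hφ, ← htr₀, mul_div_cancel_left₀ _ hDF]
  let t : Γ ⧸ ρ₁.ker → K := fun x => (τ x.out : K) / D
  have ht : ∀ x, (ρG x).trace = φ (t x) := by
    intro x
    rw [← hρG, QuotientGroup.out_eq']
  have htmk : ∀ g : Γ, t (QuotientGroup.mk g) = (τ g : K) / D := by
    intro g
    apply φ.injective
    rw [← ht, hρG]
  intro σ
  obtain ⟨ρ', hρ'⟩ := exists_descent φ σ ρG t ht
  let ρ : Γ →* GL (Fin N) ℂ := (ρ'.toHomUnits).comp (QuotientGroup.mk' ρ₁.ker)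
  have hle : ρ₁.ker ≤ ρ.ker := by
    intro g hg
    rw [MonoidHom.mem_ker]
    change ρ'.toHomUnits (QuotientGroup.mk g) = 1
    rw [(QuotientGroup.eq_one_iff g).mpr hg, map_one]
  have hval : ∀ g : Γ, (ρ g).val = ρ' (QuotientGroup.mk g) := fun g => rfl
  have hfrob : ∀ p ∉ S, (ρ (Φ.frob p)).val.trace = σ (b p) / D := by
    intro p hp
    rw [hval, hρ', htmk, map_div₀, map_natCast, hτb p hp]
  have hDC : (D : ℂ) ≠ 0 := by exact_mod_cast hD
  refine ⟨ρ, Subgroup.isOpen_mono hle hopen, fun p hp => (hin p hp).trans hle, fun p hp => ?_,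
    fun g hg => MonoidHom.mem_ker.mp (hle (hone g hg)), fun g β hg => ?_, fun hL W hW => ?_⟩
  · rw [hfrob p hp, mul_div_cancel₀ _ hDC]
  · rw [hval, hρ', htmk, map_div₀, map_natCast, htau g β hg, mul_div_cancel₀ _ hDC]
  · have : Fintype (Γ ⧸ ρ₁.ker) := Fintype.ofFinite _
    have hD2 : (0 : ℝ) < (D : ℝ) ^ 2 := by
      have : (D : ℝ) ≠ 0 := by exact_mod_cast hD
      positivity
    refine eq_bot_or_eq_top ρ' ?_ W ?_
    · refine mean_le_one Φ ρ₁.ker hopen (fun x => ‖(ρ' x).trace‖ ^ 2) ?_ (fun x => by positivity)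
        S hS (fun p => ‖σ (b p : K)‖ ^ 2 / (D : ℝ) ^ 2) ?_ (fun p => by positivity) ?_
      · intro x y hxy
        rw [isConj_iff] at hxy
        obtain ⟨c, rfl⟩ := hxy
        simp only [map_mul]
        rw [Matrix.trace_mul_cycle, ← map_mul, inv_mul_cancel, map_one, one_mul]
      · intro p hp
        rw [← hval, hfrob p hp, norm_div, div_pow, Complex.norm_natCast]
      · intro ε hε
        refine (hL ((D : ℝ) ^ 2 * ε) (by positivity)).mono fun s hs => ?_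
        have heq : ∀ p : Nat.Primes, ‖σ (b p : K)‖ ^ 2 / (D : ℝ) ^ 2 * ((p : ℕ) : ℝ) ^ (-s) =
            ((D : ℝ) ^ 2)⁻¹ * (‖σ (b p : K)‖ ^ 2 * ((p : ℕ) : ℝ) ^ (-s)) := fun p => by
          field_simp
        simp only [heq]
        refine ⟨hs.1.mul_left _, ?_⟩
        rw [tsum_mul_left, inv_mul_le_iff₀ hD2]
        refine hs.2.trans (le_of_eq ?_)
        ring
    · intro x w hw
      obtain ⟨g, rfl⟩ := QuotientGroup.mk_surjective x
      exact hW g w hw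

end Pool.Agent.GalSide
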