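import Pool.Agent.W_7742e_h15.Defs

/-!
# Auxiliary lemmas for the main theorem
-/

set_option autoImplicit false

noncomputable section

open Filter Topology NumberField

namespace Pool.Agent.GalSide

/-- The representation of `ℕ → Γ` over the limit field. -/
def limRep {F Γ : Type} [Field F] [Group Γ] {N : ℕ} {A : ℕ → Type} [∀ i, CommRing (A i)]
    (π : (∀ i, A i) →+* F) (r : ∀ i, Γ →* GL (Fin N) (A i)) :
    (ℕ → Γ) →* Matrix (Fin N) (Fin N) F where
  toFun g := Matrix.of fun a b => π fun i => (r i (g i)).val a b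
  map_one' := by
    ext a b
    simp only [Pi.one_apply, map_one, Units.val_one, Matrix.of_apply, Matrix.one_apply]
    split_ifs
    · exact map_one π
    · exact map_zero π
  map_mul' g h := by
    ext a b
    simp only [Pi.mul_apply, map_mul, Units.val_mul, Matrix.of_apply, Matrix.mul_apply]
    rw [Finset.sum_congr rfl fun c _ => (map_mul π _ _).symm, ← map_sum]
    congr 1
    ext i
    simp

theorem limRep_trace {F Γ : Type} [Field F] [Group Γ] {N : ℕ} {A : ℕ → Type}
    [∀ i, CommRing (A i)] (π : (∀ i, A i) →+* F) (r : ∀ i, Γ →* GL (Fin N) (A i)) (g : ℕ → Γ) :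
    (limRep π r g).trace = π fun i => (r i (g i)).val.trace := by
  simp only [Matrix.trace, limRep, MonoidHom.coe_mk, OneHom.coe_mk, Matrix.diag_apply,
    Matrix.of_apply]
  rw [← map_sum]
  congr 1
  ext i
  simp

theorem pi_eq_of_finite {F : Type} [Field F] {A : ℕ → Type} [∀ i, CommRing (A i)]
    (π : (∀ i, A i) →+* F) (hπ : ∀ x : ∀ i, A i, {i | x i ≠ 0}.Finite → π x = 0)
    (x y : ∀ i, A i) (h : {i | x i ≠ y i}.Finite) : π x = π y := by
  rw [← sub_eq_zero, ← map_sub]
  apply hπ
  refine h.subset ?_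
  intro i hi hxy
  exact hi (by simp [hxy])

theorem trace_eq_of_isConj {Γ A : Type} [Group Γ] [CommRing A] {N : ℕ}
    (r : Γ →* GL (Fin N) A) (U : Subgroup Γ) [U.Normal] (hU : U ≤ r.ker) (x y : Γ)
    (h : IsConj (QuotientGroup.mk x : Γ ⧸ U) (QuotientGroup.mk y)) :
    (r x).val.trace = (r y).val.trace := by
  rw [isConj_iff] at h
  obtain ⟨c, hc⟩ := h
  obtain ⟨c, rfl⟩ := QuotientGroup.mk_surjective c
  have h1 : (QuotientGroup.mk (c * x * c⁻¹) : Γ ⧸ U) = QuotientGroup.mk y := by
    simpa using hc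
  rw [QuotientGroup.eq] at h1
  have h2 := hU h1
  rw [MonoidHom.mem_ker, map_mul, map_inv, inv_mul_eq_one, map_mul, map_mul, map_inv] at h2
  rw [← h2]
  simp only [Units.val_mul]
  rw [Matrix.trace_mul_cycle, ← Units.val_mul (r c)⁻¹, inv_mul_cancel, Units.val_one, one_mul]

end Pool.Agent.GalSide
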